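import Pool.Agent.WLU.Good

set_option autoImplicit false

/-!
# Translation to the format of the frozen statement

`Lit` is the type of literals of the frozen statement for six letters, `Sat σ lit` its semantics.
Plan. `sat_eq`: the literal `(true, Sum.inl (l, r))` with swapped sums (`List (ℕ ⊕ Fin 6)` against `List (Fin 6 ⊕ ℕ)`: `Sum.swap`).
`sat_len`: the literal `(true, Sum.inr (Sum.inr ([(i, (1, 0), (0, 0)), (j, (0, 0), (1, 0))], false)))` says `|σ i| = |σ j|`.
`enc E L n`: the list of all literals of `E`, `L`, and the equation `σ 0 = 0^n` (right side: `n` copies of the letter `0`).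
`enc_comp`: `Primrec.list_cons` etc. as in `Pool/Agent/Helper76/Final.lean` (`undecidable`).
-/

namespace Pool.Agent.WLU

/-- literals of the frozen statement, six letters -/
abbrev Lit : Type := Bool × ((List (ℕ ⊕ Fin 6) × List (ℕ ⊕ Fin 6)) ⊕
  ((ℕ × List (ℕ × Fin 6 × ℕ) × List ℕ × List ℕ) ⊕ (List (ℕ × (ℕ × ℕ) × (ℕ × ℕ)) × Bool)))

/-- semantics of the literals -/
def Sat (σ : ℕ → List (Fin 6)) (lit : Lit) : Prop :=
  (Sum.elim
    (fun e : List (ℕ ⊕ Fin 6) × List (ℕ ⊕ Fin 6) =>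
      e.1.flatMap (Sum.elim σ (fun a => [a])) = e.2.flatMap (Sum.elim σ (fun a => [a])))
    (Sum.elim
      (fun r : ℕ × List (ℕ × Fin 6 × ℕ) × List ℕ × List ℕ =>
        σ r.1 ∈ ({ step := fun q a => {q' : ℕ | (q, a, q') ∈ r.2.1},
                   start := {q : ℕ | q ∈ r.2.2.1},
                   accept := {q : ℕ | q ∈ r.2.2.2} } : NFA (Fin 6) ℕ).accepts)
      (fun l : List (ℕ × (ℕ × ℕ) × (ℕ × ℕ)) × Bool =>
        (l.2 = true ∧
          (l.1.map (fun t : ℕ × (ℕ × ℕ) × (ℕ × ℕ) => ((t.2.1.1 : ℤ) - (t.2.1.2 : ℤ)) * ((σ t.1).length : ℤ))).sum >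
          (l.1.map (fun t : ℕ × (ℕ × ℕ) × (ℕ × ℕ) => ((t.2.2.1 : ℤ) - (t.2.2.2 : ℤ)) * ((σ t.1).length : ℤ))).sum) ∨
        (l.2 = false ∧
          (l.1.map (fun t : ℕ × (ℕ × ℕ) × (ℕ × ℕ) => ((t.2.1.1 : ℤ) - (t.2.1.2 : ℤ)) * ((σ t.1).length : ℤ))).sum =
          (l.1.map (fun t : ℕ × (ℕ × ℕ) × (ℕ × ℕ) => ((t.2.2.1 : ℤ) - (t.2.2.2 : ℤ)) * ((σ t.1).length : ℤ))).sum)))
    lit.2 ↔ lit.1 = true)

private theorem elim_swap (σ : ℕ → List (Fin 6)) (l : List (Fin 6 ⊕ ℕ)) :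
    (l.map Sum.swap).flatMap (Sum.elim σ (fun a => [a])) = ev σ l := by
  unfold ev
  rw [List.flatMap_map]
  congr 1
  funext x
  rcases x with x | x <;> rfl

private theorem sat_eq (σ : ℕ → List (Fin 6)) (l r : List (Fin 6 ⊕ ℕ)) :
    Sat σ (true, Sum.inl (l.map Sum.swap, r.map Sum.swap)) ↔ ev σ l = ev σ r := by
  unfold Sat
  simp only [Sum.elim_inl, elim_swap, iff_true]

private theorem sat_len (σ : ℕ → List (Fin 6)) (i j : ℕ) :
    Sat σ (true, Sum.inr (Sum.inr ([(i, (1, 0), (0, 0)), (j, (0, 0), (1, 0))], false))) ↔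
      (σ i).length = (σ j).length := by
  unfold Sat
  simp

private theorem head_eq (n : ℕ) : ((List.range n).map (fun _ => (Sum.inr 0 : ℕ ⊕ Fin 6))) =
    (List.replicate n (Sum.inl 0 : Fin 6 ⊕ ℕ)).map Sum.swap := by
  rw [List.map_const', List.length_range, List.map_replicate]
  rfl

private theorem ev_rep (σ : ℕ → List (Fin 6)) (n : ℕ) :
    ev σ (List.replicate n (Sum.inl 0 : Fin 6 ⊕ ℕ)) = nw n := by
  unfold ev nw
  induction n with
  | zero => rfl
  | succ n ih => rw [List.replicate_succ, List.flatMap_cons, ih, List.replicate_succ]; rfl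

theorem exists_enc (E : List (List (Fin 6 ⊕ ℕ) × List (Fin 6 ⊕ ℕ))) (L : List (ℕ × ℕ)) :
    ∃ enc : ℕ → List Lit, Computable enc ∧ ∀ (n : ℕ) (σ : ℕ → List (Fin 6)),
      (∀ lit ∈ enc n, Sat σ lit) ↔ σ 0 = nw n ∧ Sol E L σ := by
  refine ⟨fun n => ((true, Sum.inl (([Sum.inl 0] : List (ℕ ⊕ Fin 6)),
      (List.range n).map (fun _ => (Sum.inr 0 : ℕ ⊕ Fin 6)))) : Lit) ::
    (E.map (fun e => ((true, Sum.inl (e.1.map Sum.swap, e.2.map Sum.swap)) : Lit)) ++
      L.map (fun p => ((true, Sum.inr (Sum.inr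
        ([(p.1, (1, 0), (0, 0)), (p.2, (0, 0), (1, 0))], false))) : Lit))), ?_, fun n σ => ?_⟩
  · apply Primrec.to_comp
    refine Primrec.list_cons.comp (Primrec.pair (Primrec.const _) (Primrec.sumInl.comp
      (Primrec.pair (Primrec.const _) ?_))) (Primrec.const _)
    exact Primrec.list_map Primrec.list_range (Primrec.const _).to₂
  · rw [List.forall_mem_cons, List.forall_mem_append, List.forall_mem_map, List.forall_mem_map]
    refine and_congr ?_ (and_congr ?_ ?_)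
    · have h := sat_eq σ [Sum.inr 0] (List.replicate n (Sum.inl 0 : Fin 6 ⊕ ℕ))
      rw [ev_rep, ← head_eq] at h
      refine Iff.trans h ?_
      have h1 : ev σ [Sum.inr 0] = σ 0 := by
        unfold ev
        rw [List.flatMap_cons, List.flatMap_nil, List.append_nil]
        rfl
      rw [h1]
    · exact forall₂_congr fun e _ => sat_eq σ e.1 e.2
    · exact forall₂_congr fun p _ => sat_len σ p.1 p.2

end Pool.Agent.WLU
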