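import Pool.Agent.WLU.Sys
import Pool.Agent.WLU.Enc

set_option autoImplicit false

/-!
# Word equations with length constraints are undecidable

Plan. If the predicate is computable, then, with `exists_system` and `exists_enc`, `K n ↔ pred [enc n]` and
`n ↦ [enc n]` is computable, so `K` is computable (`ComputablePred.computable_of_manyOneReducible`).
-/

namespace Pool.Agent.WLU

theorem undec : ¬ ComputablePred (fun φ : List (List Lit) =>
    ∃ σ : ℕ → List (Fin 6), ∃ C ∈ φ, ∀ lit ∈ C, Sat σ lit) := by
  obtain ⟨K, E, L, hK, hE⟩ := exists_system
  obtain ⟨enc, hc, he⟩ := exists_enc E L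
  intro hP
  apply hK
  refine ComputablePred.computable_of_manyOneReducible ⟨fun n => [enc n], ?_, fun n => ?_⟩ hP
  · exact (Computable.list_cons.comp hc (Computable.const ([] : List (List Lit))) :)
  · rw [hE]
    simp only [List.mem_singleton, exists_eq_left, he]

end Pool.Agent.WLU
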