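import Pool.Agent.WLU.REd

set_option autoImplicit false

/-!
# From six letters to `k ≥ 2` letters

Letters of the six letter alphabet are coded by blocks of three letters. A word is a product of blocks iff its
length is `3 |y|` for some `y`, and this is expressed by `w = yyy`, `|x| = |w|`.
-/

namespace Pool.Agent.WLU

/-- image of a side over `k` letters -/
def im {k : ℕ} (σ : ℕ → List (Fin k)) (U : List (ℕ ⊕ Fin k)) : List (Fin k) :=
  U.flatMap (Sum.elim σ fun a => [a])

/-- solutions of a system over `k` letters -/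
def SolK {k : ℕ} (σ : ℕ → List (Fin k))
    (φ : List (List (ℕ ⊕ Fin k) × List (ℕ ⊕ Fin k)) × List (ℕ × ℕ)) : Prop :=
  (∀ e ∈ φ.1, im σ e.1 = im σ e.2) ∧ ∀ p ∈ φ.2, (σ p.1).length = (σ p.2).length

theorem im_append {k : ℕ} (σ : ℕ → List (Fin k)) (U V : List (ℕ ⊕ Fin k)) :
    im σ (U ++ V) = im σ U ++ im σ V := by
  simp [im, List.flatMap_append]

section code

variable {k : ℕ} (hk : 2 ≤ k)

/-- the letter for a binary digit -/
def bl (b : Bool) : Fin k := ⟨cond b 1 0, by cases b <;> simp <;> omega⟩

theorem bl_inj {b b' : Bool} (h : bl hk b = bl hk b') : b = b' := by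
  cases b <;> cases b' <;> simp_all [bl]

/-- the code of a letter: its three binary digits -/
def cd (a : Fin 6) : List (Fin k) :=
  [bl hk (a.1.testBit 0), bl hk (a.1.testBit 1), bl hk (a.1.testBit 2)]

/-- decoding of a block -/
noncomputable def dblock (x y z : Fin k) : Fin 6 :=
  open Classical in if h : ∃ a : Fin 6, cd hk a = [x, y, z] then h.choose else 0

theorem cd_inj {a b : Fin 6} (h : cd hk a = cd hk b) : a = b := by
  unfold cd at h
  simp only [List.cons.injEq, and_true] at h
  obtain ⟨h0, h1, h2⟩ := h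
  have h0' := bl_inj hk h0
  have h1' := bl_inj hk h1
  have h2' := bl_inj hk h2
  revert h0' h1' h2'
  clear h0 h1 h2
  revert a b
  decide

theorem dblock_cd (a : Fin 6) : dblock hk (bl hk (a.1.testBit 0)) (bl hk (a.1.testBit 1))
    (bl hk (a.1.testBit 2)) = a := by
  classical
  unfold dblock
  have h : ∃ b : Fin 6, cd hk b = [bl hk (a.1.testBit 0), bl hk (a.1.testBit 1),
      bl hk (a.1.testBit 2)] := ⟨a, rfl⟩
  rw [dif_pos h]
  exact cd_inj hk h.choose_spec

/-- coding of words -/
def hw (w : List (Fin 6)) : List (Fin k) := w.flatMap (cd hk)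

/-- decoding of words -/
noncomputable def dw : List (Fin k) → List (Fin 6)
  | x :: y :: z :: t => dblock hk x y z :: dw t
  | _ => []

theorem dw_hw (w : List (Fin 6)) : dw hk (hw hk w) = w := by
  induction w with
  | nil => rfl
  | cons a w ih =>
    have : hw hk (a :: w) = bl hk (a.1.testBit 0) :: bl hk (a.1.testBit 1) ::
        bl hk (a.1.testBit 2) :: hw hk w := rfl
    rw [this, dw, ih, dblock_cd]

theorem hw_append (v w : List (Fin 6)) : hw hk (v ++ w) = hw hk v ++ hw hk w := by
  simp [hw, List.flatMap_append]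

theorem hw_length (w : List (Fin 6)) : (hw hk w).length = 3 * w.length := by
  induction w with
  | nil => rfl
  | cons a w ih =>
    have : hw hk (a :: w) = cd hk a ++ hw hk w := rfl
    rw [this, List.length_append, ih, List.length_cons]
    simp [cd]
    ring

theorem dw_append : ∀ (n : ℕ) (u v : List (Fin k)), u.length = 3 * n →
    dw hk (u ++ v) = dw hk u ++ dw hk v
  | 0, u, v, h => by
    have : u = [] := List.length_eq_zero_iff.1 (by omega)
    subst this
    rfl
  | n + 1, u, v, h => by
    match u, h with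
    | x :: y :: z :: t, h =>
      have ht : t.length = 3 * n := by simp only [List.length_cons] at h; omega
      change dw hk (x :: y :: z :: (t ++ v)) = _
      rw [dw, dw, dw_append n t v ht]
      rfl
    | [x, y], h => simp only [List.length_cons, List.length_nil] at h; omega
    | [x], h => simp only [List.length_cons, List.length_nil] at h; omega
    | [], h => simp only [List.length_nil] at h; omega

theorem dw_length : ∀ (n : ℕ) (u : List (Fin k)), u.length = 3 * n → (dw hk u).length = n
  | 0, u, h => by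
    have : u = [] := List.length_eq_zero_iff.1 (by omega)
    subst this
    rfl
  | n + 1, u, h => by
    match u, h with
    | x :: y :: z :: t, h =>
      have ht : t.length = 3 * n := by simp only [List.length_cons] at h; omega
      rw [dw, List.length_cons, dw_length n t ht]
    | [x, y], h => simp only [List.length_cons, List.length_nil] at h; omega
    | [x], h => simp only [List.length_cons, List.length_nil] at h; omega
    | [], h => simp only [List.length_nil] at h; omega

theorem hw_nw (n : ℕ) : hw hk (nw n) = List.replicate (3 * n) (bl hk false) := by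
  induction n with
  | zero => rfl
  | succ n ih =>
    have h1 : nw (n + 1) = 0 :: nw n := by unfold nw; rw [List.replicate_succ]
    have h2 : hw hk (0 :: nw n) = bl hk false :: bl hk false :: bl hk false :: hw hk (nw n) := rfl
    rw [h1, h2, ih, show 3 * (n + 1) = 3 * n + 1 + 1 + 1 by ring, List.replicate_succ,
      List.replicate_succ, List.replicate_succ]

/-- translation of a side: the variable `v` becomes `3 v + 1` -/
def tr (l : List (Fin 6 ⊕ ℕ)) : List (ℕ ⊕ Fin k) :=
  l.flatMap (Sum.elim (fun a => (cd hk a).map Sum.inr) (fun v => [Sum.inl (3 * v + 1)]))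

theorem im_letters (σ : ℕ → List (Fin k)) (u : List (Fin k)) :
    im σ (u.map Sum.inr) = u := by
  induction u with
  | nil => rfl
  | cons a u ih =>
    have : im σ ((a :: u).map Sum.inr) = [a] ++ im σ (u.map Sum.inr) := rfl
    rw [this, ih]
    rfl

theorem tr_cons_letter (a : Fin 6) (l : List (Fin 6 ⊕ ℕ)) :
    tr hk (Sum.inl a :: l) = (cd hk a).map Sum.inr ++ tr hk l := rfl

theorem tr_cons_var (v : ℕ) (l : List (Fin 6 ⊕ ℕ)) :
    tr hk (Sum.inr v :: l) = [Sum.inl (3 * v + 1)] ++ tr hk l := rfl

theorem im_one (σ : ℕ → List (Fin k)) (v : ℕ) : im σ [Sum.inl v] = σ v := by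
  simp [im]

/-- coding: the image of the translated side -/
theorem im_tr (σ : ℕ → List (Fin 6)) (τ : ℕ → List (Fin k)) (h : ∀ v, τ (3 * v + 1) = hw hk (σ v))
    (l : List (Fin 6 ⊕ ℕ)) : im τ (tr hk l) = hw hk (ev σ l) := by
  induction l with
  | nil => rfl
  | cons x l ih =>
    rcases x with a | v
    · have : ev σ (Sum.inl a :: l) = [a] ++ ev σ l := rfl
      rw [tr_cons_letter, im_append, im_letters, ih, this, hw_append]
      rfl
    · have : ev σ (Sum.inr v :: l) = σ v ++ ev σ l := rfl
      rw [tr_cons_var, im_append, im_one, ih, h, this, hw_append]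

/-- decoding: the image of the translated side has length divisible by 3 and decodes correctly -/
theorem dw_im (τ : ℕ → List (Fin k)) (l : List (Fin 6 ⊕ ℕ))
    (h : ∀ v, Sum.inr v ∈ l → ∃ n, (τ (3 * v + 1)).length = 3 * n) :
    (∃ n, (im τ (tr hk l)).length = 3 * n) ∧
      dw hk (im τ (tr hk l)) = ev (fun v => dw hk (τ (3 * v + 1))) l := by
  induction l with
  | nil => exact ⟨⟨0, rfl⟩, rfl⟩
  | cons x l ih =>
    obtain ⟨⟨n, hn⟩, hd⟩ := ih fun v hv => h v (List.mem_cons_of_mem _ hv)
    rcases x with a | v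
    · have e1 : ev (fun v => dw hk (τ (3 * v + 1))) (Sum.inl a :: l) =
          [a] ++ ev (fun v => dw hk (τ (3 * v + 1))) l := rfl
      have hc : (cd hk a).length = 3 * 1 := rfl
      rw [tr_cons_letter, im_append, im_letters, e1]
      refine ⟨⟨n + 1, ?_⟩, ?_⟩
      · rw [List.length_append, hn, hc]; ring
      · rw [dw_append hk 1 _ _ hc, hd]
        congr 1
        have := dw_hw hk [a]
        rwa [show hw hk [a] = cd hk a by simp [hw]] at this
    · obtain ⟨m, hm⟩ := h v (List.mem_cons_self ..)
      have e1 : ev (fun v => dw hk (τ (3 * v + 1))) (Sum.inr v :: l) =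
          dw hk (τ (3 * v + 1)) ++ ev (fun v => dw hk (τ (3 * v + 1))) l := rfl
      rw [tr_cons_var, im_append, im_one, e1]
      refine ⟨⟨m + n, ?_⟩, ?_⟩
      · rw [List.length_append, hn, hm]; ring
      · rw [dw_append hk m _ _ hm, hd]

end code

/-- every recursively enumerable set is the solvability set of a system over `k ≥ 2` letters -/
theorem exists_system_k {k : ℕ} (hk : 2 ≤ k) {K : ℕ → Prop} (hK : REPred K) :
    ∃ φ : List (List (ℕ ⊕ Fin k) × List (ℕ ⊕ Fin k)) × List (ℕ × ℕ),
      ∀ n, K n ↔ ∃ σ : ℕ → List (Fin k),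
        σ 0 = List.replicate n (⟨0, by omega⟩ : Fin k) ∧ SolK σ φ := by
  classical
  obtain ⟨E, L, hE⟩ := exists_system_re hK
  let J : List ℕ := 0 :: vars E L
  let E' : List (List (ℕ ⊕ Fin k) × List (ℕ ⊕ Fin k)) :=
    ([Sum.inl 1], [Sum.inl 0, Sum.inl 0, Sum.inl 0]) ::
      (J.map (fun v => ([Sum.inl (3 * v + 3)],
        [Sum.inl (3 * v + 2), Sum.inl (3 * v + 2), Sum.inl (3 * v + 2)])) ++
      E.map (fun e => (tr hk e.1, tr hk e.2)))
  let L' : List (ℕ × ℕ) := J.map (fun v => (3 * v + 1, 3 * v + 3)) ++
    L.map (fun p => (3 * p.1 + 1, 3 * p.2 + 1))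
  have hrep3 : ∀ n : ℕ, List.replicate n (⟨0, by omega⟩ : Fin k) ++
      (List.replicate n (⟨0, by omega⟩ : Fin k) ++ List.replicate n (⟨0, by omega⟩ : Fin k)) =
      List.replicate (3 * n) (bl hk false) := by
    intro n
    rw [List.replicate_append_replicate, List.replicate_append_replicate]
    congr 1
    ring
  have him3 : ∀ (σ : ℕ → List (Fin k)) (v : ℕ),
      im σ [Sum.inl v, Sum.inl v, Sum.inl v] = σ v ++ (σ v ++ σ v) := by
    intro σ v
    simp [im]
  refine ⟨(E', L'), fun n => ?_⟩
  rw [hE]
  constructor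
  · rintro ⟨σ, h0, hσE, hσL⟩
    let τ : ℕ → List (Fin k) := fun j =>
      if j = 0 then List.replicate n (⟨0, by omega⟩ : Fin k)
      else if (j - 1) % 3 = 0 then hw hk (σ ((j - 1) / 3))
      else if (j - 1) % 3 = 1 then List.replicate (σ ((j - 1) / 3)).length (bl hk false)
      else List.replicate (3 * (σ ((j - 1) / 3)).length) (bl hk false)
    have t0 : τ 0 = List.replicate n (⟨0, by omega⟩ : Fin k) := rfl
    have t1 : ∀ v, τ (3 * v + 1) = hw hk (σ v) := by
      intro v
      have e1 : (3 * v + 1 - 1) % 3 = 0 := by omega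
      have e2 : (3 * v + 1 - 1) / 3 = v := by omega
      have e3 : 3 * v + 1 ≠ 0 := by omega
      simp only [τ]
      rw [if_neg e3, if_pos e1, e2]
    have t2 : ∀ v, τ (3 * v + 2) = List.replicate (σ v).length (bl hk false) := by
      intro v
      have e1 : (3 * v + 2 - 1) % 3 = 1 := by omega
      have e2 : (3 * v + 2 - 1) / 3 = v := by omega
      have e3 : 3 * v + 2 ≠ 0 := by omega
      simp only [τ]
      rw [if_neg e3, e1, if_neg (by omega), if_pos rfl, e2]
    have t3 : ∀ v, τ (3 * v + 3) = List.replicate (3 * (σ v).length) (bl hk false) := by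
      intro v
      have e1 : (3 * v + 3 - 1) % 3 = 2 := by omega
      have e2 : (3 * v + 3 - 1) / 3 = v := by omega
      have e3 : 3 * v + 3 ≠ 0 := by omega
      simp only [τ]
      rw [if_neg e3, e1, if_neg (by omega), if_neg (by omega), e2]
    refine ⟨τ, t0, ?_, ?_⟩
    · intro e he
      rcases List.mem_cons.1 he with rfl | he
      · rw [him3, t0, hrep3, im_one, t1 0, h0, hw_nw]
      · rcases List.mem_append.1 he with he | he
        · obtain ⟨v, -, rfl⟩ := List.mem_map.1 he
          rw [him3, im_one, t3, t2, List.replicate_append_replicate,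
            List.replicate_append_replicate]
          congr 1
          ring
        · obtain ⟨e', he', rfl⟩ := List.mem_map.1 he
          change im τ (tr hk e'.1) = im τ (tr hk e'.2)
          rw [im_tr hk σ τ t1, im_tr hk σ τ t1, hσE e' he']
    · intro p hp
      rcases List.mem_append.1 hp with hp | hp
      · obtain ⟨v, -, rfl⟩ := List.mem_map.1 hp
        change (τ (3 * v + 1)).length = (τ (3 * v + 3)).length
        rw [t1, t3, hw_length, List.length_replicate]
      · obtain ⟨p', hp', rfl⟩ := List.mem_map.1 hp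
        change (τ (3 * p'.1 + 1)).length = (τ (3 * p'.2 + 1)).length
        rw [t1, t1, hw_length, hw_length, hσL p' hp']
  · rintro ⟨τ, h0, hτE, hτL⟩
    have hdiv : ∀ v ∈ J, ∃ m, (τ (3 * v + 1)).length = 3 * m := by
      intro v hv
      have h1 := hτL (3 * v + 1, 3 * v + 3) (List.mem_append_left _
        (List.mem_map.2 ⟨v, hv, rfl⟩))
      have h2 := hτE ([Sum.inl (3 * v + 3)],
        [Sum.inl (3 * v + 2), Sum.inl (3 * v + 2), Sum.inl (3 * v + 2)])
        (List.mem_cons_of_mem _ (List.mem_append_left _ (List.mem_map.2 ⟨v, hv, rfl⟩)))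
      change (τ (3 * v + 1)).length = (τ (3 * v + 3)).length at h1
      change im τ [Sum.inl (3 * v + 3)] =
        im τ [Sum.inl (3 * v + 2), Sum.inl (3 * v + 2), Sum.inl (3 * v + 2)] at h2
      rw [him3, im_one] at h2
      refine ⟨(τ (3 * v + 2)).length, ?_⟩
      rw [h1, h2, List.length_append, List.length_append]
      ring
    refine ⟨fun v => dw hk (τ (3 * v + 1)), ?_, ?_, ?_⟩
    · have h1 := hτE ([Sum.inl 1], [Sum.inl 0, Sum.inl 0, Sum.inl 0]) (List.mem_cons_self ..)
      change im τ [Sum.inl 1] = im τ [Sum.inl 0, Sum.inl 0, Sum.inl 0] at h1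
      rw [him3, im_one, h0, hrep3, ← hw_nw] at h1
      change dw hk (τ 1) = nw n
      rw [h1, dw_hw]
    · intro e he
      have h1 := hτE (tr hk e.1, tr hk e.2) (List.mem_cons_of_mem _ (List.mem_append_right _
        (List.mem_map.2 ⟨e, he, rfl⟩)))
      change im τ (tr hk e.1) = im τ (tr hk e.2) at h1
      have hl := (dw_im hk τ e.1 fun v hv => hdiv v (List.mem_cons_of_mem _
        (mem_vars_E he (List.mem_append_left _ hv)))).2
      have hr := (dw_im hk τ e.2 fun v hv => hdiv v (List.mem_cons_of_mem _
        (mem_vars_E he (List.mem_append_right _ hv)))).2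
      rw [← hl, ← hr, h1]
    · intro p hp
      have h1 := hτL (3 * p.1 + 1, 3 * p.2 + 1) (List.mem_append_right _
        (List.mem_map.2 ⟨p, hp, rfl⟩))
      change (τ (3 * p.1 + 1)).length = (τ (3 * p.2 + 1)).length at h1
      obtain ⟨m, hm⟩ := hdiv p.1 (List.mem_cons_of_mem _ (mem_vars_L hp (by simp)))
      change (dw hk (τ (3 * p.1 + 1))).length = (dw hk (τ (3 * p.2 + 1))).length
      rw [dw_length hk m _ hm, dw_length hk m _ (h1 ▸ hm)]

end Pool.Agent.WLU
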