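import Pool.Agent.WLU.Defs

set_option autoImplicit false

/-!
# Every path gives a solution of the word system

Induction on the word from the right; the new letter `a` replaces `u` by `u ++ (al a (f a) ++ V a)` if `a` has
occurred before, and by `u ++ (al a (f a) ++ u)` otherwise.
-/

namespace Pool.Agent.WLU

private theorem al_len (x : Fin 3) {n : ℕ} (h : 1 ≤ n) : (al x n).length = n := by
  simp only [al, List.length_cons, List.length_replicate]
  omega

theorem back (f : Fin 3 → ℕ) (hf : ∀ x, 1 ≤ f x) (w : List (Fin 3)) :
    ∃ (u : List (Fin 6)) (U V W : Fin 3 → List (Fin 6)),
      (∀ x ∈ w, u = U x ++ (al x (f x) ++ V x)) ∧ (∀ x ∈ w, u = W x ++ (al x (f x) ++ U x)) ∧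
      (∀ x ∈ w, run w f x + (U x).length = u.length) ∧
      (∀ x, x ∉ w → run w f x = f x + u.length) ∧
      ∑ x ∈ w.toFinset, ((U x).length + f x) = u.length := by
  induction w using List.reverseRecOn with
  | nil =>
    refine ⟨[], fun _ => [], fun _ => [], fun _ => [], ?_, ?_, ?_, ?_, ?_⟩
    · intro x hx; simp at hx
    · intro x hx; simp at hx
    · intro x hx; simp at hx
    · intro x _; simp [run]
    · simp
  | append_singleton w a ih =>
    obtain ⟨u, U, V, W, h1, h2, h3, h4, h5⟩ := ih
    have hrun : run (w ++ [a]) f = R a (run w f) := by simp [run, List.foldl_append]
    have hla := al_len a (hf a)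
    by_cases ha : a ∈ w
    · have e1 := h1 a ha
      have e2 := h2 a ha
      have e3 := h3 a ha
      have eu : u ++ (al a (f a) ++ V a) = W a ++ (al a (f a) ++ u) := by
        calc u ++ (al a (f a) ++ V a) = (W a ++ (al a (f a) ++ U a)) ++ (al a (f a) ++ V a) := by rw [← e2]
          _ = W a ++ (al a (f a) ++ (U a ++ (al a (f a) ++ V a))) := by simp only [List.append_assoc]
          _ = W a ++ (al a (f a) ++ u) := by rw [← e1]
      have el := congrArg List.length e1
      simp only [List.length_append, hla] at el
      have hlen : (u ++ (al a (f a) ++ V a)).length = u.length + run w f a := by
        simp only [List.length_append, hla]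
        omega
      refine ⟨u ++ (al a (f a) ++ V a), fun x => if x = a then u else U x,
        fun x => if x = a then V a else V x ++ (al a (f a) ++ V a),
        fun x => if x = a then W a else W a ++ (al a (f a) ++ W x), ?_, ?_, ?_, ?_, ?_⟩
      · intro x hx
        by_cases hxa : x = a
        · subst hxa
          simp only [if_true]
        · have hxw : x ∈ w := by simpa [hxa] using hx
          simp only [if_neg hxa]
          conv_lhs => rw [h1 x hxw]
          simp only [List.append_assoc]
      · intro x hx
        by_cases hxa : x = a
        · subst hxa
          simp only [if_true]
          exact eu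
        · have hxw : x ∈ w := by simpa [hxa] using hx
          simp only [if_neg hxa]
          rw [eu]
          conv_lhs => rw [h2 x hxw]
          simp only [List.append_assoc]
      · intro x hx
        rw [hrun, hlen]
        by_cases hxa : x = a
        · subst hxa
          simp only [R, if_true]
          omega
        · have hxw : x ∈ w := by simpa [hxa] using hx
          have := h3 x hxw
          simp only [R, if_neg hxa]
          omega
      · intro x hx
        have hxa : x ≠ a := by rintro rfl; simp at hx
        have hxw : x ∉ w := fun h => hx (by simp [h])
        have := h4 x hxw
        rw [hrun, hlen]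
        simp only [R, if_neg hxa]
        omega
      · have ht : (w ++ [a]).toFinset = w.toFinset := by
          ext x
          simp only [List.mem_toFinset, List.mem_append, List.mem_singleton]
          constructor
          · rintro (h | rfl)
            · exact h
            · exact ha
          · exact Or.inl
        have hm : a ∈ w.toFinset := List.mem_toFinset.2 ha
        rw [ht, hlen, ← Finset.add_sum_erase _ _ hm]
        rw [← Finset.add_sum_erase _ _ hm] at h5
        have hs : ∑ x ∈ w.toFinset.erase a, ((if x = a then u else U x).length + f x) =
            ∑ x ∈ w.toFinset.erase a, ((U x).length + f x) := by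
          apply Finset.sum_congr rfl
          intro x hx
          rw [if_neg (Finset.ne_of_mem_erase hx)]
        rw [hs]
        simp only [if_true]
        omega
    · have e4 := h4 a ha
      have hlen : (u ++ (al a (f a) ++ u)).length = u.length + run w f a := by
        simp only [List.length_append, hla]
        omega
      refine ⟨u ++ (al a (f a) ++ u), fun x => if x = a then u else U x,
        fun x => if x = a then u else V x ++ (al a (f a) ++ u),
        fun x => if x = a then u else u ++ (al a (f a) ++ W x), ?_, ?_, ?_, ?_, ?_⟩
      · intro x hx
        by_cases hxa : x = a
        · subst hxa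
          simp only [if_true]
        · have hxw : x ∈ w := by simpa [hxa] using hx
          simp only [if_neg hxa]
          have e := h1 x hxw
          calc u ++ (al a (f a) ++ u) = (U x ++ (al x (f x) ++ V x)) ++ (al a (f a) ++ u) := by rw [← e]
            _ = _ := by simp only [List.append_assoc]
      · intro x hx
        by_cases hxa : x = a
        · subst hxa
          simp only [if_true]
        · have hxw : x ∈ w := by simpa [hxa] using hx
          simp only [if_neg hxa]
          have e := h2 x hxw
          calc u ++ (al a (f a) ++ u) = u ++ (al a (f a) ++ (W x ++ (al x (f x) ++ U x))) := by rw [← e]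
            _ = _ := by simp only [List.append_assoc]
      · intro x hx
        rw [hrun, hlen]
        by_cases hxa : x = a
        · subst hxa
          simp only [R, if_true]
          omega
        · have hxw : x ∈ w := by simpa [hxa] using hx
          have := h3 x hxw
          simp only [R, if_neg hxa]
          omega
      · intro x hx
        have hxa : x ≠ a := by rintro rfl; simp at hx
        have hxw : x ∉ w := fun h => hx (by simp [h])
        have := h4 x hxw
        rw [hrun, hlen]
        simp only [R, if_neg hxa]
        omega
      · have ht : (w ++ [a]).toFinset = insert a w.toFinset := by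
          ext x
          simp only [List.mem_toFinset, List.mem_append, List.mem_singleton, Finset.mem_insert]
          exact or_comm
        have hm : a ∉ w.toFinset := fun h => ha (List.mem_toFinset.1 h)
        rw [ht, hlen, Finset.sum_insert hm]
        have hs : ∑ x ∈ w.toFinset, ((if x = a then u else U x).length + f x) =
            ∑ x ∈ w.toFinset, ((U x).length + f x) := by
          apply Finset.sum_congr rfl
          intro x hx
          rw [if_neg (fun e => hm (by rw [← e]; exact hx))]
        rw [hs]
        simp only [if_true]
        omega

end Pool.Agent.WLU
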