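import Pool.Agent.WLU.Defs

set_option autoImplicit false

/-!
# Two occurrences of the block `al x n`

`shrink`: two overlapping occurrences which start at the left end and end at the right end. `short`: the two occurrences cannot
overlap, because the first letter of the block differs from the others.
-/

namespace Pool.Agent.WLU

theorem shrink {u U V W : List (Fin 6)} {x : Fin 3} {n : ℕ} (hn : 1 ≤ n)
    (h : u = U ++ (al x n ++ V)) (h' : u = W ++ (al x n ++ U)) (hle : u.length ≤ 2 * U.length) :
    ∃ U'', U = U'' ++ (al x n ++ V) ∧ U = W ++ (al x n ++ U'') := by
  have hl : (W ++ al x n).length ≤ U.length := by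
    have h1 := congrArg List.length h'
    rw [List.length_append, List.length_append] at h1
    rw [List.length_append]
    omega
  have e : (W ++ al x n) ++ U = U ++ (al x n ++ V) := by
    rw [List.append_assoc, ← h', ← h]
  rcases List.append_eq_append_iff.1 e with ⟨a', h1, h2⟩ | ⟨c', h1, h2⟩
  · refine ⟨a', h2, ?_⟩
    rw [← List.append_assoc]
    exact h1
  · have h3 : c' = [] := by
      rw [h1, List.length_append] at hl
      exact List.length_eq_zero_iff.1 (by omega)
    subst h3
    rw [List.append_nil] at h1
    rw [List.nil_append] at h2
    refine ⟨[], ?_, ?_⟩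
    · rw [List.nil_append]
      exact h2.symm
    · rw [List.append_nil]
      exact h1.symm

theorem short {u U V W : List (Fin 6)} {x : Fin 3} {n : ℕ} (hn : 1 ≤ n)
    (h : u = U ++ (al x n ++ V)) (h' : u = W ++ (al x n ++ U)) (hlt : 2 * U.length < u.length) :
    2 * U.length + n ≤ u.length := by
  by_contra hcon
  have hal : (al x n).length = n := by
    unfold al
    rw [List.length_cons, List.length_replicate]
    omega
  have hlen := congrArg List.length h'
  rw [List.length_append, List.length_append, hal] at hlen
  have e1 : u[U.length]? = some (l0 x) := by
    rw [h, List.getElem?_append_right (le_refl _), Nat.sub_self]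
    rfl
  have e2 : u[U.length]? = some (l1 x) := by
    rw [h', List.getElem?_append_right (by omega),
      List.getElem?_append_left (by rw [hal]; omega)]
    obtain ⟨k, hk⟩ : ∃ k, U.length - W.length = k + 1 := ⟨U.length - W.length - 1, by omega⟩
    rw [hk]
    unfold al
    rw [List.getElem?_cons_succ, List.getElem?_replicate, if_pos (by omega)]
  rw [e1] at e2
  have e3 : l0 x = l1 x := Option.some.inj e2
  have e4 := congrArg Fin.val e3
  simp only [l0, l1] at e4
  omega

end Pool.Agent.WLU
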