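import Pool.Agent.WLU.Lists
import Pool.Agent.WLU.ListsB

set_option autoImplicit false

/-!
# Every solution of the word system comes from a path

Strong induction on the length of the word `u`: the longest border `U a` is again a solution, for the same set of types
if it is at least half of `u`, and for the set without `a` otherwise; the last move of the path is `a`.
-/

namespace Pool.Agent.WLU

private theorem run_snoc (w : List (Fin 3)) (a : Fin 3) (f : Fin 3 → ℕ) :
    run (w ++ [a]) f = R a (run w f) := by
  unfold run
  rw [List.foldl_append]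
  rfl

private theorem R_self (a : Fin 3) (r : Fin 3 → ℕ) : R a r a = r a := if_pos rfl

private theorem R_ne {a x : Fin 3} (h : x ≠ a) (r : Fin 3 → ℕ) : R a r x = r x + r a := if_neg h

theorem core (f : Fin 3 → ℕ) (hf : ∀ x, 1 ≤ f x) (n : ℕ) : ∀ (X : Finset (Fin 3))
    (u : List (Fin 6)) (U V W : Fin 3 → List (Fin 6)), u.length = n →
    (∀ x ∈ X, u = U x ++ (al x (f x) ++ V x)) → (∀ x ∈ X, u = W x ++ (al x (f x) ++ U x)) →
    (∑ x ∈ X, ((U x).length + f x) ≤ u.length) ∧
    (∑ x ∈ X, ((U x).length + f x) = u.length → ∃ w : List (Fin 3), (∀ x, x ∈ w ↔ x ∈ X) ∧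
      (∀ x ∈ X, run w f x + (U x).length = u.length) ∧ ∀ x, x ∉ X → run w f x = f x + u.length) := by
  induction n using Nat.strong_induction_on with
  | _ n ih =>
    intro X u U V W hun hV hW
    rcases X.eq_empty_or_nonempty with rfl | hX
    · refine ⟨by simp, fun h => ⟨[], by simp, by simp, fun x _ => ?_⟩⟩
      have h0 : u.length = 0 := by
        rw [Finset.sum_empty] at h
        exact h.symm
      rw [h0]
      rfl
    obtain ⟨a, haX, hmax⟩ := X.exists_max_image (fun x => (U x).length) hX
    have hlen : u.length = (U a).length + f a + (V a).length := by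
      have h1 := congrArg List.length (hV a haX)
      rw [List.length_append, List.length_append, al_length a (hf a)] at h1
      omega
    have hfa := hf a
    have hsplit : ∑ x ∈ X, ((U x).length + f x) =
        (∑ x ∈ X.erase a, ((U x).length + f x)) + ((U a).length + f a) :=
      (Finset.sum_erase_add X _ haX).symm
    have hpre : ∀ x, ∃ V', x ∈ X → x ≠ a → U a = U x ++ (al x (f x) ++ V') := by
      intro x
      by_cases hx : x ∈ X ∧ x ≠ a
      · obtain ⟨V', hV'⟩ := pre_sep hx.2 (hf x) (hf a) (hV x hx.1) (hV a haX) (hmax x hx.1)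
        exact ⟨V', fun _ _ => hV'⟩
      · exact ⟨[], fun h1 h2 => absurd ⟨h1, h2⟩ hx⟩
    have hsuf : ∀ x, ∃ W', x ∈ X → x ≠ a → U a = W' ++ (al x (f x) ++ U x) := by
      intro x
      by_cases hx : x ∈ X ∧ x ≠ a
      · obtain ⟨W', hW'⟩ := suf_sep hx.2 (hf x) (hf a) (hW x hx.1) (hW a haX) (hmax x hx.1)
        exact ⟨W', fun _ _ => hW'⟩
      · exact ⟨[], fun h1 h2 => absurd ⟨h1, h2⟩ hx⟩
    choose V' hV' using hpre
    choose W' hW' using hsuf
    have hlt : (U a).length < n := by omega
    -- the last step of the path
    have last : ∀ w : List (Fin 3), (∀ x, x ≠ a → (x ∈ w ↔ x ∈ X)) →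
        (∀ x ∈ X, x ≠ a → run w f x + (U x).length = (U a).length) →
        (∀ x, x ∉ X → run w f x = f x + (U a).length) →
        run w f a + (U a).length = u.length →
        ∃ w : List (Fin 3), (∀ x, x ∈ w ↔ x ∈ X) ∧
          (∀ x ∈ X, run w f x + (U x).length = u.length) ∧
          ∀ x, x ∉ X → run w f x = f x + u.length := by
      intro w h1 h2 h3 h4
      refine ⟨w ++ [a], fun x => ?_, fun x hx => ?_, fun x hx => ?_⟩
      · rw [List.mem_append, List.mem_singleton]
        by_cases hxa : x = a
        · rw [hxa]
          exact ⟨fun _ => haX, fun _ => Or.inr rfl⟩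
        · rw [h1 x hxa]
          exact ⟨fun h => h.resolve_right hxa, Or.inl⟩
      · rw [run_snoc]
        by_cases hxa : x = a
        · rw [hxa, R_self]
          exact h4
        · rw [R_ne hxa]
          have := h2 x hx hxa
          omega
      · have hxa : x ≠ a := fun h => hx (h ▸ haX)
        rw [run_snoc, R_ne hxa]
        have := h3 x hx
        omega
    rcases Nat.lt_or_ge (2 * (U a).length) u.length with hc | hc
    · have hsh := short (hf a) (hV a haX) (hW a haX) hc
      obtain ⟨i1, i2⟩ := ih (U a).length hlt (X.erase a) (U a) U V' W' rfl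
        (fun x hx => hV' x (Finset.mem_of_mem_erase hx) (Finset.ne_of_mem_erase hx))
        (fun x hx => hW' x (Finset.mem_of_mem_erase hx) (Finset.ne_of_mem_erase hx))
      refine ⟨by rw [hsplit]; omega, fun heq => ?_⟩
      rw [hsplit] at heq
      obtain ⟨w, hw, hw1, hw2⟩ := i2 (by omega)
      have hra : run w f a = f a + (U a).length := hw2 a (Finset.notMem_erase a X)
      refine last w (fun x hxa => ?_) (fun x hx hxa => ?_) (fun x hx => ?_) ?_
      · rw [hw, Finset.mem_erase]
        exact ⟨fun h => h.2, fun h => ⟨hxa, h⟩⟩
      · exact hw1 x (Finset.mem_erase.2 ⟨hxa, hx⟩)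
      · exact hw2 x (fun h => hx (Finset.mem_of_mem_erase h))
      · omega
    · obtain ⟨U2, hU1, hU2⟩ := shrink (hf a) (hV a haX) (hW a haX) hc
      have hlen2 : (U a).length = U2.length + f a + (V a).length := by
        have h1 := congrArg List.length hU1
        rw [List.length_append, List.length_append, al_length a (hf a)] at h1
        omega
      obtain ⟨i1, i2⟩ := ih (U a).length hlt X (U a) (fun x => if x = a then U2 else U x)
        (fun x => if x = a then V a else V' x) (fun x => if x = a then W a else W' x) rfl
        (fun x hx => by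
          by_cases hxa : x = a
          · rw [if_pos hxa, if_pos hxa, hxa]
            exact hU1
          · rw [if_neg hxa, if_neg hxa]
            exact hV' x hx hxa)
        (fun x hx => by
          by_cases hxa : x = a
          · rw [if_pos hxa, if_pos hxa, hxa]
            exact hU2
          · rw [if_neg hxa, if_neg hxa]
            exact hW' x hx hxa)
      have hs : ∑ x ∈ X, ((if x = a then U2 else U x).length + f x) =
          (∑ x ∈ X.erase a, ((U x).length + f x)) + (U2.length + f a) := by
        rw [← Finset.sum_erase_add X _ haX, if_pos rfl]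
        congr 1
        refine Finset.sum_congr rfl fun x hx => ?_
        rw [if_neg (Finset.ne_of_mem_erase hx)]
      rw [hs] at i1 i2
      refine ⟨by rw [hsplit]; omega, fun heq => ?_⟩
      rw [hsplit] at heq
      obtain ⟨w, hw, hw1, hw2⟩ := i2 (by omega)
      have hra := hw1 a haX
      rw [if_pos rfl] at hra
      refine last w (fun x _ => hw x) (fun x hx hxa => ?_) hw2 ?_
      · have h1 := hw1 x hx
        rw [if_neg hxa] at h1
        exact h1
      · omega

end Pool.Agent.WLU
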