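import Pool.Agent.WLU.Key

set_option autoImplicit false

/-!
# Equal exponents

The equation `Mm^[m] f + Mm^[k] g = Mm^[j] (f + g)` forces `m = k`; so the sum conditions express that
the same power of `Mm` is applied to both vectors.
-/

namespace Pool.Agent.WLU

private theorem pos0 {f : Fin 3 → ℕ} (hf : Fc f) (m : ℕ) : 0 < Mm^[m] f 0 := by
  have h := fc_mm hf m
  have h1 := h.1
  have h2 := h.2.1
  omega

private theorem dbl {g : Fin 3 → ℕ} (hg : Fc g) {i j : ℕ} (h : i < j) :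
    2 * Mm^[i] g 0 ≤ Mm^[j] g 0 := by
  have h1 : 2 • (Mm^[i] g) ≤ Mm^[i + 1] g := by
    rw [Function.iterate_succ_apply']
    exact two_le_mm (fc_mm hg i)
  have h2 : 2 * Mm^[i] g 0 ≤ Mm^[i + 1] g 0 := by
    have h3 := h1 0
    simpa [Pi.smul_apply, smul_eq_mul] using h3
  rcases Nat.lt_or_eq_of_le (Nat.succ_le_of_lt h) with h3 | h3
  · exact h2.trans (iter_lt hg h3 0).le
  · rw [← h3]
    exact h2

theorem cpl {f g : Fin 3 → ℕ} (hf : Fc f) (hg : Fc g) (hfg : f ≤ g) {m k j : ℕ}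
    (hle : Mm^[m] f ≤ Mm^[k] g) (h : Mm^[m] f + Mm^[k] g = Mm^[j] (f + g)) : m = k := by
  have h0 : Mm^[m] f 0 + Mm^[k] g 0 = Mm^[j] f 0 + Mm^[j] g 0 := by
    have h1 := congrFun h 0
    rw [mm_add] at h1
    exact h1
  have hle0 : Mm^[m] f 0 ≤ Mm^[k] g 0 := hle 0
  have hj0 : Mm^[j] f 0 ≤ Mm^[j] g 0 := mm_mono hfg j 0
  have pm := pos0 hf m
  have pj := pos0 hf j
  rcases lt_trichotomy m j with h1 | h1 | h1
  · have h2 := iter_lt hf h1 0
    rcases lt_trichotomy k j with h3 | h3 | h3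
    · have h4 := iter_lt hg h3 0
      omega
    · rw [h3] at h0
      omega
    · have h4 := dbl hg h3
      omega
  · rcases lt_trichotomy k j with h3 | h3 | h3
    · have h4 := iter_lt hg h3 0
      rw [h1] at h0
      omega
    · omega
    · have h4 := iter_lt hg h3 0
      rw [h1] at h0
      omega
  · have h2 := iter_lt hf h1 0
    rcases lt_trichotomy k j with h3 | h3 | h3
    · have h4 := dbl hg h3
      omega
    · rw [h3] at h0
      omega
    · have h4 := iter_lt hg h3 0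
      omega

theorem p4_iff {f r g s : Fin 3 → ℕ} : P4 f r g s ↔
    Fc f ∧ Fc g ∧ f ≤ g ∧ r ≤ s ∧ Ex f r ∧ Ex g s ∧ Ex (f + g) (r + s) := by
  constructor
  · rintro ⟨hf, hg, hfg, m, rfl, rfl⟩
    refine ⟨hf, hg, hfg, mm_mono hfg _, (ex_iff hf).2 ⟨m, rfl⟩, (ex_iff hg).2 ⟨m, rfl⟩,
      (ex_iff (fc_add hf hg)).2 ⟨m, ?_⟩⟩
    rw [mm_add]
  · rintro ⟨hf, hg, hfg, hrs, h1, h2, h3⟩
    obtain ⟨m, rfl⟩ := (ex_iff hf).1 h1
    obtain ⟨k, rfl⟩ := (ex_iff hg).1 h2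
    obtain ⟨j, hj⟩ := (ex_iff (fc_add hf hg)).1 h3
    have h4 := cpl hf hg hfg hrs hj
    have h5 : m = k := by omega
    subst h5
    exact ⟨hf, hg, hfg, m, rfl, rfl⟩

end Pool.Agent.WLU
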