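import Mathlib

set_option autoImplicit false

/-!
# Word equations with length constraints are undecidable: definitions

Project WLU (problem MP_10893b_lc, frozen statement S14392). Vectors are functions `Fin 3 → ℕ`.
`R x` adds the coordinate `x` to the two others (Arnoux-Rauzy move), `run w` applies the moves of
the word `w` (first letter first), `Bm` is the tribonacci map, `Mm = Bm³ = run [0, 1, 2]`.
-/

namespace Pool.Agent.WLU

/-- Arnoux-Rauzy move: the coordinate `x` is added to the others -/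
def R (x : Fin 3) (r : Fin 3 → ℕ) : Fin 3 → ℕ := fun i => if i = x then r i else r i + r x

/-- the moves of the word `w`, first letter first -/
def run (w : List (Fin 3)) (f : Fin 3 → ℕ) : Fin 3 → ℕ := w.foldl (fun r x => R x r) f

/-- tribonacci map -/
def Bm (r : Fin 3 → ℕ) : Fin 3 → ℕ := ![r 0 + r 1, r 0 + r 2, r 0]

/-- its third power -/
def Mm (r : Fin 3 → ℕ) : Fin 3 → ℕ := Bm (Bm (Bm r))

/-- `r` is reached from `f` by a word which contains the three letters -/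
def Orb (f r : Fin 3 → ℕ) : Prop := ∃ w : List (Fin 3), (∀ x, x ∈ w) ∧ run w f = r

/-- positive vectors with strict triangle inequalities -/
def Dl (f : Fin 3 → ℕ) : Prop :=
  0 < f 0 ∧ 0 < f 1 ∧ 0 < f 2 ∧ f 0 < f 1 + f 2 ∧ f 1 < f 0 + f 2 ∧ f 2 < f 0 + f 1

/-- the cone of the good vectors -/
def Fc (f : Fin 3 → ℕ) : Prop := 0 < f 2 ∧ f 2 < f 0 ∧ f 0 < f 1 + f 2 ∧ f 1 < f 0 + f 2

/-- the three simultaneous orbit conditions -/
def Ex (f r : Fin 3 → ℕ) : Prop :=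
  Orb f r ∧ Orb (f + Bm f) (r + Bm r) ∧ Orb (f + Bm (Bm f)) (r + Bm (Bm r))

/-- the same power of `Mm` maps `f` to `r` and `g` to `s` -/
def P4 (f r g s : Fin 3 → ℕ) : Prop :=
  Fc f ∧ Fc g ∧ f ≤ g ∧ ∃ m : ℕ, r = Mm^[m + 1] f ∧ s = Mm^[m + 1] g

/-- the base vector -/
def e0 : Fin 3 → ℕ := ![2, 2, 1]

/-- the multiplication relation, by powers of `Mm` only; the lists of vectors are
`z 0, …, z 4` for the powers `h, 2h, 4h, 8h, 16h`, `z 5 = zb`, and `y, Y, q, Q, G, y', Y', q', Q'` -/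
def MulR (c d k : ℕ) : Prop :=
  ∃ z : Fin 6 → Fin 3 → ℕ, ∃ t : Fin 9 → Fin 3 → ℕ,
    P4 e0 (z 0) e0 (z 0) ∧ P4 e0 (z 0) (z 0) (z 1) ∧ P4 e0 (z 1) (z 1) (z 2) ∧
    P4 e0 (z 2) (z 2) (z 3) ∧ P4 e0 (z 3) (z 3) (z 4) ∧
    P4 e0 (z 5) (d • e0) (t 4) ∧
    P4 e0 (z 4) (t 0) (t 1) ∧ t 1 + e0 = t 0 + z 5 ∧
    P4 e0 (z 4) (t 2) (t 3) ∧ t 3 + c • e0 + e0 = t 2 + t 0 + z 4 ∧
    P4 e0 (z 4) (t 5) (t 6) ∧ t 6 + d • e0 = t 5 + t 4 ∧
    P4 e0 (z 4) (t 7) (t 8) ∧ t 8 + k • e0 + e0 = t 7 + t 5 + z 4 ∧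
    c ≤ z 0 0 ∧ d ≤ z 0 0 ∧ k ≤ z 0 0

/-! ## Words -/

/-- first letter of the block of type `x` -/
def l0 (x : Fin 3) : Fin 6 := ⟨2 * x.1, by have := x.2; omega⟩

/-- the other letters of the block of type `x` -/
def l1 (x : Fin 3) : Fin 6 := ⟨2 * x.1 + 1, by have := x.2; omega⟩

/-- type of a letter -/
def ty (l : Fin 6) : Fin 3 := ⟨l.1 / 2, by have := l.2; omega⟩

/-- block of type `x` and length `n ≥ 1` -/
def al (x : Fin 3) (n : ℕ) : List (Fin 6) := l0 x :: List.replicate (n - 1) (l1 x)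

/-- the word system -/
def WS (f r : Fin 3 → ℕ) : Prop :=
  ∃ (u : List (Fin 6)) (U V W : Fin 3 → List (Fin 6)),
    (∀ x, u = U x ++ (al x (f x) ++ V x)) ∧ (∀ x, u = W x ++ (al x (f x) ++ U x)) ∧
    u.length = (U 0).length + (U 1).length + (U 2).length + (f 0 + f 1 + f 2) ∧
    ∀ x, r x + (U x).length = u.length

/-! ## Matrices (acting on row vectors) -/

/-- the matrix of `Bm` -/
def BB : Matrix (Fin 3) (Fin 3) ℤ := !![1, 1, 1; 1, 0, 0; 0, 1, 0]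

/-- the matrix of `Mm` -/
def MM : Matrix (Fin 3) (Fin 3) ℤ := !![4, 3, 2; 2, 2, 1; 1, 1, 1]

/-- its inverse -/
def MI : Matrix (Fin 3) (Fin 3) ℤ := !![1, -1, -1; -1, 2, 0; 0, -1, 2]

/-- integer vector of a natural vector -/
def toZ (f : Fin 3 → ℕ) : Fin 3 → ℤ := fun i => (f i : ℤ)

end Pool.Agent.WLU
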