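import Pool.Agent.WLU.Defs

set_option autoImplicit false

/-!
# Elementary facts on the moves

Plan. `R, run, Bm, Mm` are explicit; `funext i; fin_cases i; simp [...]; omega`. `dl_run`: induction on the word from the right.
`last`: `w ≠ []` is `w' ++ [x]`. `mm_eq`: explicit formula. `fc_mm`, `fc_iter`, `mm_mono`, iterates by induction
(`Function.iterate_succ_apply'`). `iter_lt`: `Mm g 2 > g 2` for positive vectors, so the coordinate `2` is strictly increasing along
the iterates. `two_le_mm`: `2 • f ≤ Mm f` for `Dl f`: `4x+2y+z, 3x+2y+z, 2x+y+z` against `2x, 2y, 2z`.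
-/

namespace Pool.Agent.WLU

theorem run_nil (f : Fin 3 → ℕ) : run [] f = f := rfl

theorem run_snoc (w : List (Fin 3)) (x : Fin 3) (f : Fin 3 → ℕ) :
    run (w ++ [x]) f = R x (run w f) := by
  simp [run, List.foldl_append]

theorem run_append (w v : List (Fin 3)) (f : Fin 3 → ℕ) : run (w ++ v) f = run v (run w f) := by
  simp [run, List.foldl_append]

private theorem le_R (x : Fin 3) (f : Fin 3 → ℕ) : f ≤ R x f := by
  intro i
  show f i ≤ if i = x then f i else f i + f x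
  split_ifs
  · exact le_refl _
  · exact Nat.le_add_right _ _

theorem le_run (w : List (Fin 3)) (f : Fin 3 → ℕ) : f ≤ run w f := by
  induction w using List.reverseRecOn with
  | nil => exact le_refl _
  | append_singleton w x ih =>
    rw [run_snoc]
    exact le_trans ih (le_R x _)

theorem dl_of_fc {f : Fin 3 → ℕ} (h : Fc f) : Dl f := by
  obtain ⟨h1, h2, h3, h4⟩ := h
  refine ⟨?_, ?_, ?_, ?_, ?_, ?_⟩ <;> omega

private theorem dl_R {f : Fin 3 → ℕ} (h : Dl f) (x : Fin 3) : Dl (R x f) := by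
  obtain ⟨h1, h2, h3, h4, h5, h6⟩ := h
  fin_cases x <;> refine ⟨?_, ?_, ?_, ?_, ?_, ?_⟩ <;> simp [R] <;> omega

theorem dl_run {f : Fin 3 → ℕ} (h : Dl f) (w : List (Fin 3)) : Dl (run w f) := by
  induction w using List.reverseRecOn with
  | nil => exact h
  | append_singleton w x ih =>
    rw [run_snoc]
    exact dl_R ih x

theorem dl_add {f g : Fin 3 → ℕ} (hf : Dl f) (hg : Dl g) : Dl (f + g) := by
  obtain ⟨h1, h2, h3, h4, h5, h6⟩ := hf
  obtain ⟨g1, g2, g3, g4, g5, g6⟩ := hg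
  refine ⟨?_, ?_, ?_, ?_, ?_, ?_⟩ <;> simp only [Pi.add_apply] <;> omega

theorem dl_bm {f : Fin 3 → ℕ} (hf : Dl f) : Dl (Bm f) := by
  obtain ⟨h1, h2, h3, h4, h5, h6⟩ := hf
  refine ⟨?_, ?_, ?_, ?_, ?_, ?_⟩ <;> simp [Bm] <;> omega

theorem mm_eq (f : Fin 3 → ℕ) :
    Mm f = ![4 * f 0 + 2 * f 1 + f 2, 3 * f 0 + 2 * f 1 + f 2, 2 * f 0 + f 1 + f 2] := by
  funext i
  fin_cases i <;> simp [Mm, Bm] <;> omega

theorem run_abc (f : Fin 3 → ℕ) : run [0, 1, 2] f = Mm f := by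
  rw [mm_eq]
  funext i
  fin_cases i <;> simp [run, R] <;> omega

theorem bm_add (f g : Fin 3 → ℕ) : Bm (f + g) = Bm f + Bm g := by
  funext i
  fin_cases i <;> simp [Bm] <;> omega

private theorem mm_bm1 (f : Fin 3 → ℕ) : Mm (Bm f) = Bm (Mm f) := rfl

theorem mm_bm (f : Fin 3 → ℕ) (m : ℕ) : Mm^[m] (Bm f) = Bm (Mm^[m] f) := by
  induction m with
  | zero => rfl
  | succ m ih => rw [Function.iterate_succ_apply', Function.iterate_succ_apply', ih, mm_bm1]

private theorem mm_add1 (f g : Fin 3 → ℕ) : Mm (f + g) = Mm f + Mm g := by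
  unfold Mm
  rw [bm_add, bm_add, bm_add]

theorem mm_add (f g : Fin 3 → ℕ) (m : ℕ) : Mm^[m] (f + g) = Mm^[m] f + Mm^[m] g := by
  induction m with
  | zero => rfl
  | succ m ih =>
    rw [Function.iterate_succ_apply', Function.iterate_succ_apply', Function.iterate_succ_apply', ih,
      mm_add1]

private theorem mm_smul1 (d : ℕ) (f : Fin 3 → ℕ) : Mm (d • f) = d • Mm f := by
  rw [mm_eq, mm_eq]
  funext i
  fin_cases i <;> simp <;> ring

theorem mm_smul (d : ℕ) (f : Fin 3 → ℕ) (m : ℕ) : Mm^[m] (d • f) = d • Mm^[m] f := by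
  induction m with
  | zero => rfl
  | succ m ih => rw [Function.iterate_succ_apply', Function.iterate_succ_apply', ih, mm_smul1]

private theorem mm_mono1 {f g : Fin 3 → ℕ} (h : f ≤ g) : Mm f ≤ Mm g := by
  have h0 : f 0 ≤ g 0 := h 0
  have h1 : f 1 ≤ g 1 := h 1
  have h2 : f 2 ≤ g 2 := h 2
  rw [mm_eq, mm_eq]
  intro i
  fin_cases i <;> simp <;> omega

theorem mm_mono {f g : Fin 3 → ℕ} (h : f ≤ g) (m : ℕ) : Mm^[m] f ≤ Mm^[m] g := by
  induction m with
  | zero => exact h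
  | succ m ih =>
    rw [Function.iterate_succ_apply', Function.iterate_succ_apply']
    exact mm_mono1 ih

private theorem le_mm1 (f : Fin 3 → ℕ) : f ≤ Mm f := by
  rw [mm_eq]
  intro i
  fin_cases i <;> simp <;> omega

theorem le_mm (f : Fin 3 → ℕ) (m : ℕ) : f ≤ Mm^[m] f := by
  induction m with
  | zero => exact le_refl _
  | succ m ih =>
    rw [Function.iterate_succ_apply']
    exact le_trans ih (le_mm1 _)

theorem fc_add {f g : Fin 3 → ℕ} (hf : Fc f) (hg : Fc g) : Fc (f + g) := by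
  obtain ⟨h1, h2, h3, h4⟩ := hf
  obtain ⟨g1, g2, g3, g4⟩ := hg
  refine ⟨?_, ?_, ?_, ?_⟩ <;> simp only [Pi.add_apply] <;> omega

theorem fc_smul {f : Fin 3 → ℕ} (hf : Fc f) {d : ℕ} (hd : 1 ≤ d) : Fc (d • f) := by
  obtain ⟨h1, h2, h3, h4⟩ := hf
  refine ⟨?_, ?_, ?_, ?_⟩ <;> simp only [Pi.smul_apply, smul_eq_mul]
  · exact Nat.mul_pos (by omega) h1
  · exact Nat.mul_lt_mul_of_pos_left h2 (by omega)
  · rw [← Nat.mul_add]
    exact Nat.mul_lt_mul_of_pos_left h3 (by omega)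
  · rw [← Nat.mul_add]
    exact Nat.mul_lt_mul_of_pos_left h4 (by omega)

private theorem fc_mm1 {f : Fin 3 → ℕ} (hf : Fc f) : Fc (Mm f) := by
  obtain ⟨h1, h2, h3, h4⟩ := hf
  rw [mm_eq]
  refine ⟨?_, ?_, ?_, ?_⟩ <;> simp <;> omega

theorem fc_mm {f : Fin 3 → ℕ} (hf : Fc f) (m : ℕ) : Fc (Mm^[m] f) := by
  induction m with
  | zero => exact hf
  | succ m ih =>
    rw [Function.iterate_succ_apply']
    exact fc_mm1 ih

theorem fc_e0 : Fc e0 := by
  refine ⟨?_, ?_, ?_, ?_⟩ <;> simp [e0]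

theorem two_le_mm {f : Fin 3 → ℕ} (hf : Fc f) : 2 • f ≤ Mm f := by
  obtain ⟨h1, h2, h3, h4⟩ := hf
  rw [mm_eq]
  intro i
  fin_cases i <;> simp <;> omega

private theorem pos_of_fc {f : Fin 3 → ℕ} (hf : Fc f) (i : Fin 3) : 0 < f i := by
  obtain ⟨h1, h2, h3, _⟩ := dl_of_fc hf
  fin_cases i
  · exact h1
  · exact h2
  · exact h3

private theorem iter_succ_lt {f : Fin 3 → ℕ} (hf : Fc f) (m : ℕ) (i : Fin 3) :
    Mm^[m] f i < Mm^[m + 1] f i := by
  have h1 := two_le_mm (fc_mm hf m) i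
  have h2 := pos_of_fc (fc_mm hf m) i
  rw [Function.iterate_succ_apply']
  simp only [Pi.smul_apply, smul_eq_mul] at h1
  omega

theorem iter_lt {f : Fin 3 → ℕ} (hf : Fc f) {m n : ℕ} (h : m < n) (i : Fin 3) :
    Mm^[m] f i < Mm^[n] f i :=
  strictMono_nat_of_lt_succ (f := fun m => Mm^[m] f i) (fun m => iter_succ_lt hf m i) h

theorem iter_inj {f : Fin 3 → ℕ} (hf : Fc f) {m n : ℕ} (h : Mm^[m] f = Mm^[n] f) : m = n := by
  rcases lt_trichotomy m n with hlt | heq | hlt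
  · have := iter_lt hf hlt 0
    rw [h] at this
    exact absurd this (lt_irrefl _)
  · exact heq
  · have := iter_lt hf hlt 0
    rw [h] at this
    exact absurd this (lt_irrefl _)

/-- the iterates of `e0` are unbounded -/
theorem lt_iter (h : ℕ) : h < Mm^[h] e0 0 := by
  induction h with
  | zero => simp [e0]
  | succ h ih =>
    have := iter_succ_lt fc_e0 h 0
    omega

private theorem sum_le (h : ℕ) : Mm^[h] e0 0 + Mm^[h] e0 1 + Mm^[h] e0 2 ≤ 5 * 9 ^ h := by
  induction h with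
  | zero => simp [e0]
  | succ h ih =>
    rw [Function.iterate_succ_apply', mm_eq, pow_succ]
    simp only [Matrix.cons_val_zero, Matrix.cons_val_one, Matrix.cons_val]
    omega

theorem iter_le (h : ℕ) : Mm^[h] e0 0 ≤ 5 * 9 ^ h := by
  have := sum_le h
  omega

end Pool.Agent.WLU
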