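import Pool.Agent.WLU.DetA
import Pool.Agent.WLU.Run

set_option autoImplicit false

/-!
# Small multiples of `e0` are not divisible by `MM ^ a - 1`

`toz_iter`: the iterates of `Mm` are given by the powers of the matrix `MM`. `inj`: `MM ^ a - 1` is injective. `small`: the determinant
of the matrix with the rows `q, q BB, q BB²` is a form of degree three, multiplicative for matrices which commute with `BB`, so a
multiple `n e0` in the image of `MM ^ a - 1` satisfies `|det (MM ^ a - 1)| ≤ |n| ^ 3` or `n = 0`.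
-/

namespace Pool.Agent.WLU

open Matrix

private theorem de_step (f : Fin 3 → ℕ) : toZ (Mm f) = toZ f ᵥ* MM := by
  rw [mm_eq]
  ext i
  fin_cases i <;>
    simp [toZ, MM, Matrix.vecMul, dotProduct, Fin.sum_univ_three] <;> ring

theorem toz_iter (f : Fin 3 → ℕ) (m : ℕ) : toZ (Mm^[m] f) = toZ f ᵥ* (MM ^ m) := by
  induction m with
  | zero => simp
  | succ m ih =>
    rw [Function.iterate_succ_apply', de_step, ih, Matrix.vecMul_vecMul, pow_succ]

private theorem de_det_ne {a : ℕ} (ha : 4 ≤ a) : (MM ^ a - 1).det ≠ 0 := by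
  intro h
  have h1 := det_ge ha
  rw [h, mul_zero] at h1
  have : (0 : ℤ) < 6 ^ a := by positivity
  linarith

theorem inj {a : ℕ} (ha : 4 ≤ a) {q : Fin 3 → ℤ} (h : q ᵥ* (MM ^ a) = q) : q = 0 := by
  apply Matrix.eq_zero_of_vecMul_eq_zero (de_det_ne ha)
  rw [Matrix.vecMul_sub, Matrix.vecMul_one, h, sub_self]

/-- the matrix with the rows `q, q BB, q BB²` -/
private def KK (q : Fin 3 → ℤ) : Matrix (Fin 3) (Fin 3) ℤ :=
  Matrix.of ![q, q ᵥ* BB, q ᵥ* (BB * BB)]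

private theorem de_kk_mul {G : Matrix (Fin 3) (Fin 3) ℤ} (hG : G * BB = BB * G)
    (q : Fin 3 → ℤ) : KK (q ᵥ* G) = KK q * G := by
  ext i j
  rw [Matrix.mul_apply_eq_vecMul]
  fin_cases i
  · rfl
  · show ((q ᵥ* G) ᵥ* BB) j = ((q ᵥ* BB) ᵥ* G) j
    rw [Matrix.vecMul_vecMul, Matrix.vecMul_vecMul, hG]
  · show ((q ᵥ* G) ᵥ* (BB * BB)) j = ((q ᵥ* (BB * BB)) ᵥ* G) j
    rw [Matrix.vecMul_vecMul, Matrix.vecMul_vecMul, ← mul_assoc, hG, mul_assoc, hG, ← mul_assoc]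

private theorem de_kk_smul (n : ℤ) (q : Fin 3 → ℤ) : KK (n • q) = n • KK q := by
  ext i j
  fin_cases i
  · rfl
  · show ((n • q) ᵥ* BB) j = n • ((q ᵥ* BB) j)
    rw [Matrix.smul_vecMul]; rfl
  · show ((n • q) ᵥ* (BB * BB)) j = n • ((q ᵥ* (BB * BB)) j)
    rw [Matrix.smul_vecMul]; rfl

private theorem de_kk_e0 : (KK (toZ e0)).det = -1 := by
  have h : KK (toZ e0) = !![2, 2, 1; 4, 3, 2; 7, 6, 4] := by
    ext i j
    fin_cases i <;> fin_cases j <;> rfl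
  rw [h, Matrix.det_fin_three]
  simp

private theorem de_comm (a : ℕ) : (MM ^ a - 1) * BB = BB * (MM ^ a - 1) := by
  have h : Commute MM BB := by
    show MM * BB = BB * MM
    decide
  have h2 := h.pow_left a
  rw [sub_mul, mul_sub, one_mul, mul_one, h2.eq]

theorem small {h : ℕ} (hh : 1 ≤ h) {q : Fin 3 → ℤ} {n : ℤ}
    (hn : |n| ≤ ((Mm^[h] e0 0 : ℕ) : ℤ) ^ 2) (H : q ᵥ* (MM ^ (16 * h)) - q = n • toZ e0) :
    n = 0 := by
  by_contra hn0
  have H' : q ᵥ* (MM ^ (16 * h) - 1) = n • toZ e0 := by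
    rw [Matrix.vecMul_sub, Matrix.vecMul_one, H]
  have h1 : (KK q).det * (MM ^ (16 * h) - 1).det = n ^ 3 * (-1) := by
    rw [← Matrix.det_mul, ← de_kk_mul (de_comm _), H', de_kk_smul, Matrix.det_smul, de_kk_e0]
    simp
  have h2 : (KK q).det ≠ 0 := by
    intro h0
    rw [h0, zero_mul] at h1
    have : n ^ 3 = 0 := by linarith
    exact hn0 (pow_eq_zero_iff (by norm_num) |>.1 this)
  have h3 : |(MM ^ (16 * h) - 1).det| ≤ |n| ^ 3 := by
    have h4 : |(KK q).det| * |(MM ^ (16 * h) - 1).det| = |n| ^ 3 := by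
      rw [← abs_mul, h1, abs_mul, abs_pow]; simp
    have h5 : 1 ≤ |(KK q).det| := Int.one_le_abs h2
    nlinarith [abs_nonneg (MM ^ (16 * h) - 1).det]
  have h6 := det_ge (a := 16 * h) (by omega)
  have h7 : ((Mm^[h] e0 0 : ℕ) : ℤ) ≤ 5 * 9 ^ h := by exact_mod_cast iter_le h
  have h8 : |n| ≤ (5 * 9 ^ h) ^ 2 := by
    refine le_trans hn ?_
    exact pow_le_pow_left₀ (by positivity) h7 2
  have h9 : |n| ^ 3 ≤ ((5 * 9 ^ h) ^ 2) ^ 3 := pow_le_pow_left₀ (abs_nonneg n) h8 3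
  have h10 : (MM ^ (16 * h) - 1).det ≤ |(MM ^ (16 * h) - 1).det| := le_abs_self _
  have h11 : (6 : ℤ) ^ (16 * h) ≤ 4 * ((5 * 9 ^ h) ^ 2) ^ 3 := by linarith
  have h12 : (6 : ℤ) ^ (16 * h) = 2821109907456 ^ h := by
    rw [pow_mul]; norm_num
  have h13 : 4 * (((5 : ℤ) * 9 ^ h) ^ 2) ^ 3 = 62500 * 531441 ^ h := by
    have : (531441 : ℤ) ^ h = (9 ^ h) ^ 6 := by
      rw [← pow_mul, mul_comm h 6, pow_mul]; norm_num
    rw [this]; ring
  rw [h12, h13] at h11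
  obtain ⟨g, rfl⟩ : ∃ g, h = g + 1 := ⟨h - 1, by omega⟩
  have h14 : (531441 : ℤ) ^ g ≤ 2821109907456 ^ g := pow_le_pow_left₀ (by norm_num) (by norm_num) g
  have h15 : (0 : ℤ) < 531441 ^ g := by positivity
  rw [pow_succ, pow_succ] at h11
  nlinarith

end Pool.Agent.WLU
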