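import Pool.Agent.WLU.Defs

set_option autoImplicit false

/-!
# The determinant of `MM ^ a - 1`

Plan. `mm_mi`: `decide`/`norm_num [Matrix.mul_fin_three]` or `ext i j; fin_cases i <;> fin_cases j <;> rfl`. `mm_pow_mi`: `MM`, `MI` commute
and `MM * MI = 1`, `(Commute…).mul_pow`. `det_mm`: `Matrix.det_fin_three`. `det_sub_one`: for a `3 × 3` matrix with `X * Y = 1` and
`det X = 1`, `Y` is the adjugate of `X` (multiply by `adjugate X`), and `det (X - 1) = tr X - tr (adjugate X) + det X - 1 …` i.e.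
`det (X - 1) = det X - tr (adjugate X) + tr X - 1 = tr X - tr Y` (expand with `Matrix.det_fin_three`, `Matrix.adjugate_fin_three`; `ring`).
`tr_pow_ge`: the first row `v a = (e₁ MM ^ a)` satisfies `v a 0 ≥ v a 1 ≥ v a 2 ≥ 0` and
`17 v₀ + 9 v₁ + 5 v₂ ≥ 17 * 6 ^ a` (since `MM (17, 9, 5)ᵗ = (105, 57, 31)ᵗ ≥ 6 (17, 9, 5)ᵗ` and the entries are nonnegative), so
`31 v₀ ≥ 17 * 6 ^ a`; the other diagonal entries are nonnegative. State the induction for the triple of entries of the first row of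
`MM ^ (a+1) = MM ^ a * MM`.
`tr_inv_le`: the sum of the absolute values of each row of `MI` is `3`, so all entries of `MI ^ a` are at most `3 ^ a` in absolute value
(induction on `MI ^ (a+1) = MI * MI ^ a`).
`det_ge`: `4 * det ≥ 2 * 6^a - 12 * 3^a ≥ 6 ^ a` for `a ≥ 4`.
-/

namespace Pool.Agent.WLU

theorem mm_mi : MM * MI = 1 := by
  ext i j
  fin_cases i <;> fin_cases j <;>
    simp [MM, MI, Matrix.mul_apply, Fin.sum_univ_three]

private theorem mi_mm : MI * MM = 1 := by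
  ext i j
  fin_cases i <;> fin_cases j <;>
    simp [MM, MI, Matrix.mul_apply, Fin.sum_univ_three]

theorem mm_pow_mi (a : ℕ) : MM ^ a * MI ^ a = 1 := by
  have h : Commute MM MI := by
    unfold Commute SemiconjBy
    rw [mm_mi, mi_mm]
  rw [← h.mul_pow, mm_mi, one_pow]

theorem det_mm (a : ℕ) : (MM ^ a).det = 1 := by
  have h : MM.det = 1 := by
    rw [Matrix.det_fin_three]
    simp [MM]
  rw [Matrix.det_pow, h, one_pow]

theorem det_sub_one {X Y : Matrix (Fin 3) (Fin 3) ℤ} (h : X * Y = 1) (hX : X.det = 1) :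
    (X - 1).det = X.trace - Y.trace := by
  have hY : Y = X.adjugate := by
    have h1 : X.adjugate * (X * Y) = X.adjugate := by rw [h, mul_one]
    rw [← mul_assoc, Matrix.adjugate_mul, hX, one_smul, one_mul] at h1
    exact h1
  rw [Matrix.det_fin_three] at hX
  rw [hY, Matrix.trace_fin_three, Matrix.trace_fin_three, Matrix.adjugate_fin_three,
    Matrix.det_fin_three]
  simp [Matrix.sub_apply, Matrix.one_apply]
  linarith

private theorem pow_nonneg_entry (a : ℕ) : ∀ i j, 0 ≤ (MM ^ a) i j := by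
  induction a with
  | zero =>
    intro i j
    rw [pow_zero, Matrix.one_apply]
    split_ifs <;> norm_num
  | succ a ih =>
    intro i j
    rw [pow_succ, Matrix.mul_apply]
    refine Finset.sum_nonneg fun k _ => mul_nonneg (ih i k) ?_
    fin_cases k <;> fin_cases j <;> simp [MM]

private theorem row_bound (a : ℕ) : (MM ^ a) 0 1 ≤ (MM ^ a) 0 0 ∧ (MM ^ a) 0 2 ≤ (MM ^ a) 0 1 ∧
    17 * 6 ^ a ≤ 17 * (MM ^ a) 0 0 + 9 * (MM ^ a) 0 1 + 5 * (MM ^ a) 0 2 := by
  induction a with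
  | zero => simp [Matrix.one_apply]
  | succ a ih =>
    obtain ⟨h1, h2, h3⟩ := ih
    have p0 := pow_nonneg_entry a 0 0
    have p1 := pow_nonneg_entry a 0 1
    have p2 := pow_nonneg_entry a 0 2
    have e0 : (MM ^ (a + 1)) 0 0 = 4 * (MM ^ a) 0 0 + 2 * (MM ^ a) 0 1 + (MM ^ a) 0 2 := by
      rw [pow_succ, Matrix.mul_apply, Fin.sum_univ_three]
      simp [MM]
      ring
    have e1 : (MM ^ (a + 1)) 0 1 = 3 * (MM ^ a) 0 0 + 2 * (MM ^ a) 0 1 + (MM ^ a) 0 2 := by
      rw [pow_succ, Matrix.mul_apply, Fin.sum_univ_three]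
      simp [MM]
      ring
    have e2 : (MM ^ (a + 1)) 0 2 = 2 * (MM ^ a) 0 0 + (MM ^ a) 0 1 + (MM ^ a) 0 2 := by
      rw [pow_succ, Matrix.mul_apply, Fin.sum_univ_three]
      simp [MM]
      ring
    rw [e0, e1, e2]
    refine ⟨by linarith, by linarith, ?_⟩
    have h4 : (17 : ℤ) * 6 ^ (a + 1) = 6 * (17 * 6 ^ a) := by ring
    rw [h4]
    linarith

theorem tr_pow_ge (a : ℕ) : 6 ^ a ≤ 2 * (MM ^ a).trace := by
  obtain ⟨h1, h2, h3⟩ := row_bound a
  have p1 := pow_nonneg_entry a 1 1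
  have p2 := pow_nonneg_entry a 2 2
  have h6 : (0 : ℤ) ≤ 6 ^ a := by positivity
  rw [Matrix.trace_fin_three]
  linarith

private theorem inv_entry (a : ℕ) : ∀ i j, |(MI ^ a) i j| ≤ 3 ^ a := by
  induction a with
  | zero =>
    intro i j
    rw [pow_zero, Matrix.one_apply]
    split_ifs <;> norm_num
  | succ a ih =>
    intro i j
    have h0 := abs_le.1 (ih 0 j)
    have h1 := abs_le.1 (ih 1 j)
    have h2 := abs_le.1 (ih 2 j)
    have h3 : (3 : ℤ) ^ (a + 1) = 3 * 3 ^ a := by ring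
    rw [pow_succ', Matrix.mul_apply, Fin.sum_univ_three, h3, abs_le]
    generalize (MI ^ a) 0 j = x at *
    generalize (MI ^ a) 1 j = y at *
    generalize (MI ^ a) 2 j = z at *
    fin_cases i <;> simp [MI] <;> constructor <;> linarith

theorem tr_inv_le (a : ℕ) : (MI ^ a).trace ≤ 3 * 3 ^ a := by
  have h0 := (abs_le.1 (inv_entry a 0 0)).2
  have h1 := (abs_le.1 (inv_entry a 1 1)).2
  have h2 := (abs_le.1 (inv_entry a 2 2)).2
  rw [Matrix.trace_fin_three]
  linarith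

theorem det_ge {a : ℕ} (ha : 4 ≤ a) : 6 ^ a ≤ 4 * (MM ^ a - 1).det := by
  rw [det_sub_one (mm_pow_mi a) (det_mm a)]
  have h1 := tr_pow_ge a
  have h2 := tr_inv_le a
  have h3 : (12 : ℤ) * 3 ^ a ≤ 6 ^ a := by
    have h4 : (6 : ℤ) ^ a = 2 ^ a * 3 ^ a := by
      rw [← mul_pow]
      norm_num
    have h5 : (2 : ℤ) ^ 4 ≤ 2 ^ a := pow_le_pow_right₀ (by norm_num) ha
    rw [h4]
    have h6 : (0 : ℤ) ≤ 3 ^ a := by positivity
    nlinarith
  linarith

end Pool.Agent.WLU
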