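import Pool.Agent.WLU.Defs

set_option autoImplicit false

/-!
# Sets of tuples of numbers definable by word equations and equal length constraints

The number `n` is coded by the word `0^n` (`nw n`). The file follows `Pool/Agent/Helper76/Good.lean` (same structure, with the free
monoid on `Fin 6` instead of `M`, `nw n` instead of `b0 ^ n`, and with a second list `L` of pairs of variables of equal length): copy
the proofs from there.
Plan. `Good.reindex`, `Good.inter`: renaming of variables, as in Helper76. `Good.ex`: new variable `X` with the equation `X 0 = 0 X`,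
which says that `X = nw n` for some `n` (`comm_iff`). `good_const`, `good_add`: one equation. `good_len`: auxiliary.
-/

namespace Pool.Agent.WLU

/-- the word `0^n` -/
def nw (n : ℕ) : List (Fin 6) := List.replicate n 0

/-- value of a word with variables -/
def ev {V : Type} (σ : V → List (Fin 6)) (l : List (Fin 6 ⊕ V)) : List (Fin 6) :=
  l.flatMap (Sum.elim (fun a => [a]) σ)

/-- `σ` satisfies the equations `E` and the equal length constraints `L` -/
def Sol {V : Type} (E : List (List (Fin 6 ⊕ V) × List (Fin 6 ⊕ V))) (L : List (V × V))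
    (σ : V → List (Fin 6)) : Prop :=
  (∀ e ∈ E, ev σ e.1 = ev σ e.2) ∧ ∀ p ∈ L, (σ p.1).length = (σ p.2).length

/-- a set of tuples of natural numbers definable by a system -/
def Good {ι : Type} (S : Set (ι → ℕ)) : Prop :=
  ∃ (κ : Type) (E : List (List (Fin 6 ⊕ (ι ⊕ κ)) × List (Fin 6 ⊕ (ι ⊕ κ))))
    (L : List ((ι ⊕ κ) × (ι ⊕ κ))),
    ∀ v : ι → ℕ, v ∈ S ↔ ∃ τ : κ → List (Fin 6), Sol E L (Sum.elim (fun i => nw (v i)) τ)

/-- renaming of variables -/
def ren {V W : Type} (g : V → W) (l : List (Fin 6 ⊕ V)) : List (Fin 6 ⊕ W) := l.map (Sum.map id g)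

/-- renaming of variables in the equations -/
def renE {V W : Type} (g : V → W) (E : List (List (Fin 6 ⊕ V) × List (Fin 6 ⊕ V))) :
    List (List (Fin 6 ⊕ W) × List (Fin 6 ⊕ W)) := E.map (fun e => (ren g e.1, ren g e.2))

/-- renaming of variables in the length constraints -/
def renL {V W : Type} (g : V → W) (L : List (V × V)) : List (W × W) :=
  L.map (fun p => (g p.1, g p.2))

theorem ev_append {V : Type} (σ : V → List (Fin 6)) (l l' : List (Fin 6 ⊕ V)) :
    ev σ (l ++ l') = ev σ l ++ ev σ l' := by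
  simp [ev, List.flatMap_append]

theorem ev_ren {V W : Type} (g : V → W) (τ : W → List (Fin 6)) (l : List (Fin 6 ⊕ V)) :
    ev τ (ren g l) = ev (τ ∘ g) l := by
  unfold ev ren
  rw [List.flatMap_map]
  congr 1
  funext x
  rcases x with x | x <;> rfl

theorem sol_ren {V W : Type} (g : V → W) (τ : W → List (Fin 6))
    (E : List (List (Fin 6 ⊕ V) × List (Fin 6 ⊕ V))) (L : List (V × V)) :
    Sol (renE g E) (renL g L) τ ↔ Sol E L (τ ∘ g) := by
  unfold Sol renE renL
  simp only [List.mem_map, forall_exists_index, and_imp, forall_apply_eq_imp_iff₂, ev_ren,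
    Function.comp]

theorem sol_append {V : Type} (σ : V → List (Fin 6))
    (E E' : List (List (Fin 6 ⊕ V) × List (Fin 6 ⊕ V))) (L L' : List (V × V)) :
    Sol (E ++ E') (L ++ L') σ ↔ Sol E L σ ∧ Sol E' L' σ := by
  unfold Sol
  simp only [List.mem_append]
  constructor
  · rintro ⟨h1, h2⟩
    exact ⟨⟨fun e he => h1 e (Or.inl he), fun e he => h2 e (Or.inl he)⟩,
      ⟨fun e he => h1 e (Or.inr he), fun e he => h2 e (Or.inr he)⟩⟩
  · rintro ⟨⟨h1, h2⟩, ⟨h3, h4⟩⟩
    refine ⟨?_, ?_⟩
    · rintro e (he | he)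
      · exact h1 e he
      · exact h3 e he
    · rintro e (he | he)
      · exact h2 e he
      · exact h4 e he

theorem nw_length (n : ℕ) : (nw n).length = n := by
  simp [nw]

theorem nw_add (m n : ℕ) : nw m ++ nw n = nw (m + n) := by
  simp [nw, List.replicate_append_replicate]

private theorem nw_inj {m n : ℕ} (h : nw m = nw n) : m = n := by
  have := congrArg List.length h
  rwa [nw_length, nw_length] at this

/-- the words which commute with a letter are its powers -/
theorem comm_iff (a : Fin 6) (X : List (Fin 6)) :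
    X ++ [a] = [a] ++ X ↔ ∃ n, X = List.replicate n a := by
  constructor
  · intro h
    induction X with
    | nil => exact ⟨0, rfl⟩
    | cons b X ih =>
      simp only [List.cons_append, List.nil_append, List.cons.injEq] at h
      obtain ⟨h1, h2⟩ := h
      subst h1
      obtain ⟨n, hn⟩ := ih h2
      exact ⟨n + 1, by rw [hn, List.replicate_succ]⟩
  · rintro ⟨n, rfl⟩
    rw [← List.replicate_succ']
    rfl

theorem Good.ext {ι : Type} {S S' : Set (ι → ℕ)} (h : Good S) (H : ∀ v, v ∈ S ↔ v ∈ S') :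
    Good S' := by
  have : S = S' := Set.ext H
  rwa [← this]

theorem Good.reindex {ι ι' : Type} {S : Set (ι → ℕ)} (h : Good S) (g : ι → ι') :
    Good {v : ι' → ℕ | v ∘ g ∈ S} := by
  obtain ⟨κ, E, L, hE⟩ := h
  refine ⟨κ, renE (Sum.map g id) E, renL (Sum.map g id) L, fun v => ?_⟩
  rw [Set.mem_ofPred_eq, hE]
  refine exists_congr fun τ => ?_
  rw [sol_ren]
  have : (Sum.elim (fun i => nw (v i)) τ) ∘ Sum.map g id =
      Sum.elim (fun i => nw ((v ∘ g) i)) τ := by
    funext s; rcases s with s | s <;> rfl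
  rw [this]

theorem Good.inter {ι : Type} {S S' : Set (ι → ℕ)} (h : Good S) (h' : Good S') :
    Good (S ∩ S') := by
  obtain ⟨κ, E, L, hE⟩ := h
  obtain ⟨κ', E', L', hE'⟩ := h'
  refine ⟨κ ⊕ κ', renE (Sum.map id Sum.inl) E ++ renE (Sum.map id Sum.inr) E',
    renL (Sum.map id Sum.inl) L ++ renL (Sum.map id Sum.inr) L', fun v => ?_⟩
  rw [Set.mem_inter_iff, hE, hE']
  simp only [sol_append, sol_ren]
  constructor
  · rintro ⟨⟨τ, h1⟩, ⟨τ', h2⟩⟩
    refine ⟨Sum.elim τ τ', ?_, ?_⟩
    · convert h1 using 1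
      funext s; rcases s with s | s <;> rfl
    · convert h2 using 1
      funext s; rcases s with s | s <;> rfl
  · rintro ⟨τ, h1, h2⟩
    refine ⟨⟨τ ∘ Sum.inl, ?_⟩, ⟨τ ∘ Sum.inr, ?_⟩⟩
    · convert h1 using 1
      funext s; rcases s with s | s <;> rfl
    · convert h2 using 1
      funext s; rcases s with s | s <;> rfl

theorem good_and {ι : Type} {P Q : (ι → ℕ) → Prop} (hP : Good {v | P v}) (hQ : Good {v | Q v}) :
    Good {v | P v ∧ Q v} := hP.inter hQ

/-- existential quantification over one natural number -/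
theorem Good.ex {ι : Type} {P : (ι → ℕ) → ℕ → Prop}
    (h : Good {v : Option ι → ℕ | P (v ∘ some) (v none)}) : Good {v : ι → ℕ | ∃ x, P v x} := by
  obtain ⟨κ, E, L, hE⟩ := h
  let g : Option ι ⊕ κ → ι ⊕ (Unit ⊕ κ) :=
    Sum.elim (fun o => Option.elim o (Sum.inr (Sum.inl ())) Sum.inl) (fun k => Sum.inr (Sum.inr k))
  let X : ι ⊕ (Unit ⊕ κ) := Sum.inr (Sum.inl ())
  refine ⟨Unit ⊕ κ, [([Sum.inr X, Sum.inl 0], [Sum.inl 0, Sum.inr X])] ++ renE g E,
    [] ++ renL g L, fun v => ?_⟩
  rw [Set.mem_ofPred_eq]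
  simp only [sol_append, sol_ren]
  have hX : ∀ σ : ι ⊕ (Unit ⊕ κ) → List (Fin 6),
      Sol [([Sum.inr X, Sum.inl 0], [Sum.inl 0, Sum.inr X])] [] σ ↔
        σ X ++ [0] = [0] ++ σ X := by
    intro σ
    unfold Sol ev
    simp
  simp only [hX]
  constructor
  · rintro ⟨x, hx⟩
    have hx' : (fun o : Option ι => Option.elim o x v) ∈
        {v : Option ι → ℕ | P (v ∘ some) (v none)} := hx
    obtain ⟨τ, hτ⟩ := (hE _).1 hx'
    refine ⟨Sum.elim (fun _ => nw x) τ, (comm_iff 0 _).2 ⟨x, rfl⟩, ?_⟩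
    convert hτ using 1
    funext s
    rcases s with (_ | s) | s <;> rfl
  · rintro ⟨τ, h1, h4⟩
    obtain ⟨x, hx⟩ := (comm_iff 0 _).1 h1
    refine ⟨x, ?_⟩
    have hmem : (fun o : Option ι => Option.elim o x v) ∈
        {v : Option ι → ℕ | P (v ∘ some) (v none)} := by
      rw [hE]
      refine ⟨τ ∘ Sum.inr, ?_⟩
      convert h4 using 1
      funext s
      rcases s with (_ | s) | s
      · exact hx.symm
      · rfl
      · rfl
    exact hmem

theorem good_const {ι : Type} (i : ι) (n : ℕ) : Good {v : ι → ℕ | v i = n} := by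
  refine ⟨Empty, [([Sum.inr (Sum.inl i)], List.replicate n (Sum.inl 0))], [], fun v => ?_⟩
  have hrep : ∀ (σ : ι ⊕ Empty → List (Fin 6)) k,
      ev σ (List.replicate k (Sum.inl 0)) = nw k := by
    intro σ k
    induction k with
    | zero => rfl
    | succ k ih =>
      rw [List.replicate_succ]
      change [0] ++ ev σ (List.replicate k (Sum.inl 0)) = nw (k + 1)
      rw [ih]
      rfl
  have hS : ∀ σ : ι ⊕ Empty → List (Fin 6),
      Sol [([Sum.inr (Sum.inl i)], List.replicate n (Sum.inl 0))] [] σ ↔ σ (Sum.inl i) = nw n := by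
    intro σ
    unfold Sol
    simp only [List.mem_singleton, forall_eq, hrep]
    simp [ev]
  simp only [hS, Sum.elim_inl]
  rw [Set.mem_ofPred_eq]
  constructor
  · rintro h; exact ⟨fun e => e.elim, by rw [h]⟩
  · rintro ⟨_, h⟩; exact nw_inj h

theorem good_add {ι : Type} (i j k : ι) : Good {v : ι → ℕ | v i + v j = v k} := by
  refine ⟨Empty, [([Sum.inr (Sum.inl i), Sum.inr (Sum.inl j)], [Sum.inr (Sum.inl k)])], [],
    fun v => ?_⟩
  have hS : ∀ σ : ι ⊕ Empty → List (Fin 6),
      Sol [([Sum.inr (Sum.inl i), Sum.inr (Sum.inl j)], [Sum.inr (Sum.inl k)])] [] σ ↔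
        σ (Sum.inl i) ++ σ (Sum.inl j) = σ (Sum.inl k) := by
    intro σ
    unfold Sol ev
    simp
  simp only [hS, Sum.elim_inl, nw_add]
  rw [Set.mem_ofPred_eq]
  constructor
  · rintro h; exact ⟨fun e => e.elim, by rw [h]⟩
  · rintro ⟨_, h⟩; exact nw_inj h

end Pool.Agent.WLU
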