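import Pool.Agent.WLU.Good

set_option autoImplicit false

/-!
# Functions with definable graph

The file follows `Pool/Agent/Helper76/Good.lean`.
-/

namespace Pool.Agent.WLU

theorem good_true {ι : Type} : Good {_v : ι → ℕ | True} := by
  refine ⟨Empty, [], [], fun v => ⟨fun _ => ⟨fun e => e.elim, ?_, ?_⟩, fun _ => trivial⟩⟩
  · intro e he
    exact absurd he List.not_mem_nil
  · intro p hp
    exact absurd hp List.not_mem_nil

/-- definable functions -/
def GoodFn {ι : Type} (f : (ι → ℕ) → ℕ) : Prop :=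
  Good {v : Option ι → ℕ | f (v ∘ some) = v none}

theorem goodFn_proj {ι : Type} (i : ι) : GoodFn (fun v : ι → ℕ => v i) := by
  unfold GoodFn
  have h0 : Good {v : Option ι → ℕ | ∃ z, v (some i) + z = v none ∧ z = 0} := by
    apply Good.ex (P := fun v z => v (some i) + z = v none ∧ z = 0)
    exact good_and (good_add (some (some i)) none (some none)) (good_const none 0)
  refine h0.ext fun v => ?_
  rw [Set.mem_ofPred_eq, Set.mem_ofPred_eq]
  constructor
  · rintro ⟨z, h, rfl⟩; exact h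
  · intro h; exact ⟨0, h, rfl⟩

theorem goodFn_const {ι : Type} (n : ℕ) : GoodFn (fun _ : ι → ℕ => n) := by
  unfold GoodFn
  refine (good_const none n).ext fun v => ?_
  rw [Set.mem_ofPred_eq, Set.mem_ofPred_eq]
  exact eq_comm

theorem goodFn_op {ι : Type} {op : ℕ → ℕ → ℕ}
    (hop : ∀ (κ : Type) (i j k : κ), Good {v : κ → ℕ | op (v i) (v j) = v k})
    {f g : (ι → ℕ) → ℕ} (hf : GoodFn f) (hg : GoodFn g) : GoodFn (fun v => op (f v) (g v)) := by
  unfold GoodFn at *
  have h0 : Good {v : Option ι → ℕ | ∃ x, ∃ y, f (v ∘ some) = x ∧ g (v ∘ some) = y ∧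
      op x y = v none} := by
    apply Good.ex (P := fun v x => ∃ y, f (v ∘ some) = x ∧ g (v ∘ some) = y ∧ op x y = v none)
    apply Good.ex (P := fun v y => f ((v ∘ some) ∘ some) = v none ∧ g ((v ∘ some) ∘ some) = y ∧
      op (v none) y = v (some none))
    refine good_and ?_ (good_and ?_ (hop _ _ _ _))
    · exact hf.reindex (fun o => Option.elim o (some none) (fun i => some (some (some i))))
    · exact hg.reindex (fun o => Option.elim o none (fun i => some (some (some i))))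
  refine h0.ext fun v => ?_
  rw [Set.mem_ofPred_eq, Set.mem_ofPred_eq]
  constructor
  · rintro ⟨x, y, rfl, rfl, h⟩; exact h
  · intro h; exact ⟨_, _, rfl, rfl, h⟩

theorem goodFn_add {ι : Type} {f g : (ι → ℕ) → ℕ} (hf : GoodFn f) (hg : GoodFn g) :
    GoodFn (fun v => f v + g v) := goodFn_op (fun _ i j k => good_add i j k) hf hg

theorem good_eq {ι : Type} {f g : (ι → ℕ) → ℕ} (hf : GoodFn f) (hg : GoodFn g) :
    Good {v : ι → ℕ | f v = g v} := by
  have h0 : Good {v : ι → ℕ | ∃ x, f v = x ∧ g v = x} := by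
    apply Good.ex (P := fun v x => f v = x ∧ g v = x)
    exact good_and hf hg
  refine h0.ext fun v => ?_
  rw [Set.mem_ofPred_eq, Set.mem_ofPred_eq]
  constructor
  · rintro ⟨x, rfl, h⟩; exact h.symm
  · intro h; exact ⟨_, rfl, h.symm⟩

private theorem goodFn_rx {ι ι' : Type} (g : ι → ι') {f : (ι → ℕ) → ℕ} (hf : GoodFn f) :
    GoodFn (fun v : ι' → ℕ => f (v ∘ g)) :=
  Good.reindex (S := {v : Option ι → ℕ | f (v ∘ some) = v none}) hf (Option.map g)

theorem good_le {ι : Type} {f g : (ι → ℕ) → ℕ} (hf : GoodFn f) (hg : GoodFn g) :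
    Good {v : ι → ℕ | f v ≤ g v} := by
  have h0 : Good {v : ι → ℕ | ∃ z, f v + z = g v} := by
    apply Good.ex (P := fun v z => f v + z = g v)
    exact good_eq (goodFn_add (goodFn_rx some hf) (goodFn_proj none)) (goodFn_rx some hg)
  refine h0.ext fun v => ?_
  rw [Set.mem_ofPred_eq, Set.mem_ofPred_eq]
  constructor
  · rintro ⟨z, h⟩
    omega
  · intro h
    exact ⟨g v - f v, by omega⟩

theorem good_lt {ι : Type} {f g : (ι → ℕ) → ℕ} (hf : GoodFn f) (hg : GoodFn g) :
    Good {v : ι → ℕ | f v < g v} := by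
  refine (good_le (goodFn_add hf (goodFn_const 1)) hg).ext fun v => ?_
  rw [Set.mem_ofPred_eq, Set.mem_ofPred_eq]
  exact Nat.succ_le_iff

/-- multiplication by a constant -/
theorem goodFn_cmul {ι : Type} {f : (ι → ℕ) → ℕ} (n : ℕ) (hf : GoodFn f) :
    GoodFn (fun v => n * f v) := by
  induction n with
  | zero =>
    have h : (fun v : ι → ℕ => 0 * f v) = fun _ => 0 := by
      funext v
      exact Nat.zero_mul _
    rw [h]
    exact goodFn_const 0
  | succ n ih =>
    have h : (fun v : ι → ℕ => (n + 1) * f v) = fun v => n * f v + f v := by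
      funext v
      exact Nat.succ_mul n (f v)
    rw [h]
    exact goodFn_add ih hf

private theorem good_exFin' : ∀ {m : ℕ} {ι : Type} {S : Set (ι ⊕ Fin m → ℕ)}, Good S →
    Good {v : ι → ℕ | ∃ t : Fin m → ℕ, Sum.elim v t ∈ S}
  | 0, ι, S, h => by
    refine (h.reindex (Sum.elim id Fin.elim0)).ext fun v => ?_
    rw [Set.mem_ofPred_eq, Set.mem_ofPred_eq]
    have : ∀ t : Fin 0 → ℕ, v ∘ Sum.elim id Fin.elim0 = Sum.elim v t := by
      intro t; funext s; rcases s with s | s
      · rfl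
      · exact s.elim0
    constructor
    · intro h; exact ⟨Fin.elim0, by rwa [← this]⟩
    · rintro ⟨t, h⟩; rwa [this t]
  | m + 1, ι, S, h => by
    let g : ι ⊕ Fin (m + 1) → Option (ι ⊕ Fin m) :=
      Sum.elim (fun i => some (Sum.inl i)) (Fin.cons none (fun j => some (Sum.inr j)))
    have h1 : Good {v : Option (ι ⊕ Fin m) → ℕ | v ∘ g ∈ S} := h.reindex g
    have h2 : Good {v : ι ⊕ Fin m → ℕ | ∃ x, (Sum.elim (v ∘ Sum.inl) (Fin.cons x (v ∘ Sum.inr)) :
        ι ⊕ Fin (m + 1) → ℕ) ∈ S} := by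
      apply Good.ex (P := fun v x => (Sum.elim (v ∘ Sum.inl) (Fin.cons x (v ∘ Sum.inr)) :
        ι ⊕ Fin (m + 1) → ℕ) ∈ S)
      refine h1.ext fun v => ?_
      rw [Set.mem_ofPred_eq, Set.mem_ofPred_eq]
      have : v ∘ g = (Sum.elim ((v ∘ some) ∘ Sum.inl) (Fin.cons (v none) ((v ∘ some) ∘ Sum.inr)) :
        ι ⊕ Fin (m + 1) → ℕ) := by
        funext s; rcases s with s | s
        · rfl
        · refine Fin.cases ?_ (fun j => ?_) s <;> rfl
      rw [this]
    refine (good_exFin' h2).ext fun v => ?_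
    rw [Set.mem_ofPred_eq, Set.mem_ofPred_eq]
    constructor
    · rintro ⟨t, x, hx⟩
      exact ⟨Fin.cons x t, hx⟩
    · rintro ⟨t, ht⟩
      refine ⟨Fin.tail t, t 0, ?_⟩
      change (Sum.elim v (Fin.cons (t 0) (Fin.tail t)) : ι ⊕ Fin (m + 1) → ℕ) ∈ S
      rwa [Fin.cons_self_tail]

theorem good_exFin {m : ℕ} {ι : Type} {S : Set (ι ⊕ Fin m → ℕ)} (h : Good S) :
    Good {v : ι → ℕ | ∃ t : Fin m → ℕ, Sum.elim v t ∈ S} := good_exFin' h

theorem Good.exs {κ : Type} [Finite κ] {ι : Type} {S : Set (ι ⊕ κ → ℕ)} (h : Good S) :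
    Good {v : ι → ℕ | ∃ t : κ → ℕ, Sum.elim v t ∈ S} := by
  obtain ⟨m, ⟨e⟩⟩ := Finite.exists_equiv_fin κ
  have h1 : Good {w : ι ⊕ Fin m → ℕ | w ∘ Sum.map id e ∈ S} := h.reindex (Sum.map id e)
  refine (good_exFin h1).ext fun v => ?_
  rw [Set.mem_ofPred_eq, Set.mem_ofPred_eq]
  have h2 : ∀ t : Fin m → ℕ, Sum.elim v t ∘ Sum.map id e = Sum.elim v (t ∘ e) := by
    intro t
    funext s
    rcases s with s | s <;> rfl
  constructor
  · rintro ⟨t, ht⟩
    rw [Set.mem_ofPred_eq, h2] at ht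
    exact ⟨t ∘ e, ht⟩
  · rintro ⟨t, ht⟩
    refine ⟨t ∘ e.symm, ?_⟩
    rw [Set.mem_ofPred_eq, h2]
    have h3 : (t ∘ e.symm) ∘ e = t := by
      funext j
      exact congrArg t (e.symm_apply_apply j)
    rw [h3]
    exact ht

private theorem good_forallFin {ι : Type} : ∀ (m : ℕ) (P : Fin m → (ι → ℕ) → Prop),
    (∀ j, Good {v | P j v}) → Good {v : ι → ℕ | ∀ j, P j v} := by
  intro m
  induction m with
  | zero =>
    intro P _
    exact good_true.ext fun v => ⟨fun _ j => j.elim0, fun _ => trivial⟩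
  | succ m ih =>
    intro P hP
    refine (good_and (hP 0) (ih (fun j => P j.succ) fun j => hP j.succ)).ext fun v => ?_
    rw [Set.mem_ofPred_eq, Set.mem_ofPred_eq]
    exact (Fin.forall_fin_succ (P := fun j => P j v)).symm

theorem good_forall {κ : Type} [Finite κ] {ι : Type} {P : κ → (ι → ℕ) → Prop}
    (h : ∀ j, Good {v | P j v}) : Good {v : ι → ℕ | ∀ j, P j v} := by
  obtain ⟨m, ⟨e⟩⟩ := Finite.exists_equiv_fin κ
  refine (good_forallFin m (fun j => P (e.symm j)) fun j => h (e.symm j)).ext fun v => ?_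
  rw [Set.mem_ofPred_eq, Set.mem_ofPred_eq]
  constructor
  · intro hv j
    have h1 := hv (e j)
    rwa [e.symm_apply_apply] at h1
  · intro hv j
    exact hv _

/-- substitution of definable functions -/
theorem Good.comp {κ : Type} [Finite κ] {S : Set (κ → ℕ)} (hS : Good S) {ι : Type}
    {F : κ → (ι → ℕ) → ℕ} (hF : ∀ j, GoodFn (F j)) : Good {v : ι → ℕ | (fun j => F j v) ∈ S} := by
  have h1 : Good {w : ι ⊕ κ → ℕ | (∀ j, F j (w ∘ Sum.inl) = w (Sum.inr j)) ∧ w ∘ Sum.inr ∈ S} := by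
    refine good_and (good_forall fun j => ?_) (hS.reindex Sum.inr)
    exact Good.reindex (S := {v : Option ι → ℕ | F j (v ∘ some) = v none}) (hF j)
      (fun o => Option.elim o (Sum.inr j) Sum.inl)
  refine (Good.exs h1).ext fun v => ?_
  rw [Set.mem_ofPred_eq, Set.mem_ofPred_eq]
  constructor
  · rintro ⟨t, h2, h3⟩
    have h4 : (fun j => F j v) = t := funext h2
    rw [h4]
    exact h3
  · intro h2
    exact ⟨fun j => F j v, fun j => rfl, h2⟩

/-- a definable function restricted to a part of the variables -/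
theorem goodFn_reindex {ι ι' : Type} (g : ι → ι') {f : (ι → ℕ) → ℕ} (hf : GoodFn f) :
    GoodFn (fun v : ι' → ℕ => f (v ∘ g)) := goodFn_rx g hf

end Pool.Agent.WLU
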