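import Pool.Agent.WLU.Run

set_option autoImplicit false

/-!
# Completeness of the multiplication relation

Plan. `k = c * d`. Take `h = c * d + c + d ≥ 1`, so that `c, d, k ≤ h < Mm^[h] e0 0` (`lt_iter`), `a = 16 * h`, `b = a * c`,
`z 0, …, z 4 = Mm^[h] e0, Mm^[2h] e0, Mm^[4h] e0, Mm^[8h] e0, Mm^[16h] e0`, `z 5 = Mm^[b] e0`.
`Y j := ∑ i ∈ range j, Mm^[a * i] e0`, `Mm^[a] (Y j) + e0 = Y j + Mm^[a * j] e0` (induction on `j`),
`S := ∑ j ∈ range c, Y j`, `Mm^[a] S + c • e0 = S + Y c` (sum of the previous ones).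
`t 0 = Y c`, `t 1 = Mm^[a] (Y c)`, `t 2 = S + e0`, `t 3 = Mm^[a] (S + e0)`, `t 4 = Mm^[b] (d • e0)`, `t 5 = d • Y c`,
`t 6 = Mm^[a] (d • Y c)`, `t 7 = d • S + e0`, `t 8 = Mm^[a] (d • S + e0)`.
All the vectors are in the cone `Fc` and `≥ e0`: `Y c` is a sum of `c ≥ 1` vectors `Mm^[a * i] e0` (`fc_add`, `fc_mm`, `le_mm`; the first
term is `e0`), `S + e0`: `S` is a sum of `Y j`, `j ≥ 1` and `Y 0 = 0` (prove `∀ c, Fc (S c + e0)` by induction). Exponents in `P4` are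
`m + 1` with `m + 1 = h, 2h, …` (all `≥ 1`; write `h = m + 1` first). Equations: additivity `mm_add`, `mm_smul`,
`Function.iterate_add_apply`.
-/

namespace Pool.Agent.WLU

private theorem p4_pow {g : Fin 3 → ℕ} (hg : Fc g) (hle : e0 ≤ g) {n : ℕ} (hn : 1 ≤ n) :
    P4 e0 (Mm^[n] e0) g (Mm^[n] g) := by
  obtain ⟨m, rfl⟩ := Nat.exists_eq_add_of_le' hn
  exact ⟨fc_e0, hg, hle, m, rfl, rfl⟩

private theorem zf_add {f g : Fin 3 → ℕ} (hf : f = 0 ∨ Fc f) (hg : g = 0 ∨ Fc g) :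
    f + g = 0 ∨ Fc (f + g) := by
  rcases hf with rfl | hf
  · rw [zero_add]
    exact hg
  · rcases hg with rfl | hg
    · rw [add_zero]
      exact Or.inr hf
    · exact Or.inr (fc_add hf hg)

private theorem zf_add_fc {f g : Fin 3 → ℕ} (hf : f = 0 ∨ Fc f) (hg : Fc g) : Fc (f + g) := by
  rcases hf with rfl | hf
  · rw [zero_add]
    exact hg
  · exact fc_add hf hg

private theorem zf_smul {f : Fin 3 → ℕ} (hf : f = 0 ∨ Fc f) {d : ℕ} (hd : 1 ≤ d) :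
    d • f = 0 ∨ Fc (d • f) := by
  rcases hf with rfl | hf
  · rw [smul_zero]
    exact Or.inl rfl
  · exact Or.inr (fc_smul hf hd)

/-- partial sums of the geometric series -/
private def YY (a : ℕ) : ℕ → Fin 3 → ℕ
  | 0 => 0
  | j + 1 => YY a j + Mm^[a * j] e0

/-- sums of the partial sums -/
private def SS (a : ℕ) : ℕ → Fin 3 → ℕ
  | 0 => 0
  | j + 1 => SS a j + YY a j

private theorem mm_zero (n : ℕ) : Mm^[n] (0 : Fin 3 → ℕ) = 0 := by
  have h := mm_smul 0 (0 : Fin 3 → ℕ) n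
  rw [zero_smul, zero_smul] at h
  exact h

private theorem yy_eq (a j : ℕ) : Mm^[a] (YY a j) + e0 = YY a j + Mm^[a * j] e0 := by
  induction j with
  | zero =>
    show Mm^[a] (0 : Fin 3 → ℕ) + e0 = 0 + Mm^[a * 0] e0
    rw [mm_zero, mul_zero]
    rfl
  | succ j ih =>
    show Mm^[a] (YY a j + Mm^[a * j] e0) + e0 = YY a j + Mm^[a * j] e0 + Mm^[a * (j + 1)] e0
    rw [mm_add, ← Function.iterate_add_apply, add_right_comm, ih, mul_add, mul_one,
      add_comm (a * j) a]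

private theorem ss_eq (a c : ℕ) : Mm^[a] (SS a c) + c • e0 = SS a c + YY a c := by
  induction c with
  | zero =>
    show Mm^[a] (0 : Fin 3 → ℕ) + 0 • e0 = 0 + 0
    rw [mm_zero, zero_smul]
  | succ c ih =>
    show Mm^[a] (SS a c + YY a c) + (c + 1) • e0 = SS a c + YY a c + (YY a c + Mm^[a * c] e0)
    rw [mm_add, add_smul, one_smul, ← yy_eq, ← ih]
    abel

private theorem yy_z (a j : ℕ) : YY a j = 0 ∨ Fc (YY a j) := by
  induction j with
  | zero => exact Or.inl rfl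
  | succ j ih => exact zf_add ih (Or.inr (fc_mm fc_e0 _))

private theorem ss_z (a c : ℕ) : SS a c = 0 ∨ Fc (SS a c) := by
  induction c with
  | zero => exact Or.inl rfl
  | succ c ih => exact zf_add ih (yy_z a c)

private theorem yy_fc (a : ℕ) {c : ℕ} (hc : 1 ≤ c) : Fc (YY a c) ∧ e0 ≤ YY a c := by
  obtain ⟨j, rfl⟩ := Nat.exists_eq_add_of_le' hc
  refine ⟨zf_add_fc (yy_z a j) (fc_mm fc_e0 _), ?_⟩
  exact (le_mm e0 (a * j)).trans (le_add_of_nonneg_left zero_le)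

private theorem le_smul_self' {f : Fin 3 → ℕ} {d : ℕ} (hd : 1 ≤ d) : f ≤ d • f := by
  intro i
  show f i ≤ d * f i
  exact Nat.le_mul_of_pos_left _ hd

theorem mulR_complete {c d : ℕ} (hc : 1 ≤ c) (hd : 1 ≤ d) : MulR c d (c * d) := by
  obtain ⟨h, hh⟩ : ∃ h, h = c * d + c + d := ⟨_, rfl⟩
  have hh1 : 1 ≤ h := by omega
  obtain ⟨hY, hYe⟩ := yy_fc (16 * h) hc
  have hS := ss_z (16 * h) c
  have eY := yy_eq (16 * h) c
  have eS := ss_eq (16 * h) c
  have hlt := lt_iter h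
  have hz : ∀ n, Fc (Mm^[n] e0) := fun n => fc_mm fc_e0 n
  have hze : ∀ n, e0 ≤ Mm^[n] e0 := fun n => le_mm e0 n
  have hb : 1 ≤ 16 * h * c := Nat.mul_pos (by omega) hc
  have hdbl : ∀ n, Mm^[n] (Mm^[n] e0) = Mm^[2 * n] e0 := by
    intro n
    rw [← Function.iterate_add_apply, two_mul]
  set Y := YY (16 * h) c with hYd
  set S := SS (16 * h) c with hSd
  have hSe : Fc (S + e0) := zf_add_fc hS fc_e0
  have hdS : Fc (d • S + e0) := zf_add_fc (zf_smul hS hd) fc_e0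
  have hle : ∀ f : Fin 3 → ℕ, e0 ≤ f + e0 := fun f => le_add_of_nonneg_left zero_le
  have q : ∀ n, 1 ≤ n → P4 e0 (Mm^[n] e0) (Mm^[n] e0) (Mm^[2 * n] e0) := by
    intro n hn
    have h1 := p4_pow (hz n) (hze n) hn
    rw [hdbl] at h1
    exact h1
  have q2 := q (2 * h) (by omega)
  have q4 := q (4 * h) (by omega)
  have q8 := q (8 * h) (by omega)
  rw [← mul_assoc] at q2 q4 q8
  refine ⟨![Mm^[h] e0, Mm^[2 * h] e0, Mm^[4 * h] e0, Mm^[8 * h] e0, Mm^[16 * h] e0,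
    Mm^[16 * h * c] e0], ![Y, Mm^[16 * h] Y, S + e0, Mm^[16 * h] (S + e0),
    Mm^[16 * h * c] (d • e0), d • Y, Mm^[16 * h] (d • Y), d • S + e0,
    Mm^[16 * h] (d • S + e0)], ?_, ?_, ?_, ?_, ?_, ?_, ?_, ?_, ?_, ?_, ?_, ?_, ?_, ?_, ?_, ?_, ?_⟩
  · exact p4_pow fc_e0 (le_refl _) hh1
  · exact q h hh1
  · exact q2
  · exact q4
  · exact q8
  · exact p4_pow (fc_smul fc_e0 hd) (le_smul_self' hd) hb
  · exact p4_pow hY hYe (by omega)
  · exact eY
  · exact p4_pow hSe (hle S) (by omega)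
  · show Mm^[16 * h] (S + e0) + c • e0 + e0 = S + e0 + Y + Mm^[16 * h] e0
    rw [mm_add]
    have h1 : Mm^[16 * h] S + Mm^[16 * h] e0 + c • e0 + e0 =
        (Mm^[16 * h] S + c • e0) + Mm^[16 * h] e0 + e0 := by abel
    rw [h1, eS]
    abel
  · exact p4_pow (fc_smul hY hd) (hYe.trans (le_smul_self' hd)) (by omega)
  · show Mm^[16 * h] (d • Y) + d • e0 = d • Y + Mm^[16 * h * c] (d • e0)
    rw [mm_smul, mm_smul, ← smul_add, eY, smul_add]
  · exact p4_pow hdS (hle _) (by omega)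
  · show Mm^[16 * h] (d • S + e0) + (c * d) • e0 + e0 = d • S + e0 + d • Y + Mm^[16 * h] e0
    rw [mm_add, mm_smul, mul_comm c d, mul_smul]
    have h1 : d • Mm^[16 * h] S + Mm^[16 * h] e0 + d • c • e0 + e0 =
        d • (Mm^[16 * h] S + c • e0) + Mm^[16 * h] e0 + e0 := by
      rw [smul_add]
      abel
    rw [h1, eS, smul_add]
    abel
  · show c ≤ Mm^[h] e0 0
    omega
  · show d ≤ Mm^[h] e0 0
    omega
  · show c * d ≤ Mm^[h] e0 0
    omega

end Pool.Agent.WLU
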