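import Pool.Agent.WLU.Det

set_option autoImplicit false

/-!
# Soundness of the multiplication relation

Plan. Unfold `MulR`, `P4`. First `P4 e0 (z 0) e0 (z 0)`: `z 0 = Mm^[h] e0`, `h = m + 1 ≥ 1`. `P4 e0 (z 0) (z 0) (z 1)`: its exponent is
`h` too (`iter_inj fc_e0`), so `z 1 = Mm^[h] (z 0) = Mm^[2h] e0` (`Function.iterate_add_apply`), in the same way
`z 2 = Mm^[4h] e0`, `z 3 = Mm^[8h] e0`, `z 4 = Mm^[16h] e0`; put `a = 16h`. `z 5 = Mm^[b] e0`, `t 4 = Mm^[b] (d • e0) = d • z 5`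
(`mm_smul`). `t 1 = Mm^[a] (t 0)`, `t 3 = Mm^[a] (t 2)`, `t 6 = Mm^[a] (t 5)`, `t 8 = Mm^[a] (t 7)`.
Over the integers (`toz_iter`), `X := MM ^ a`, `e := toZ e0`, `y, q, y', q'` = `toZ` of `t 0, t 2, t 5, t 7`, `zb = toZ (z 5)`,
`z = e ᵥ* X`:  `y X + e = y + zb`, `q X + c e + e = q + y + z`, `y' X + d e = y' + d zb`, `q' X + k e + e = q' + y' + z`.
(1) `(y' - d y) X = y' - d y`, so `y' = d y` (`inj`). (2) `q₁ := q - e`, `q₁' := q' - e`: `q₁ X = q₁ + y - c e`,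
`q₁' X = q₁' + y' - k e`, so for `w := d q₁ - q₁'`: `w X - w = (k - c d) e`. (3) `|k - c d| ≤ (z 0 0)²` because
`1 ≤ c, d, k ≤ z 0 0`. `small` gives `k = c d`.
-/

namespace Pool.Agent.WLU

open Matrix

private theorem toz_add (f g : Fin 3 → ℕ) : toZ (f + g) = toZ f + toZ g := by
  funext i
  simp [toZ]

private theorem toz_smul (n : ℕ) (f : Fin 3 → ℕ) : toZ (n • f) = (n : ℤ) • toZ f := by
  funext i
  simp [toZ]

/-- the exponent of a `P4` starting at `e0` is determined -/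
private theorem p4_iter {n : ℕ} {r g s : Fin 3 → ℕ} (h : P4 e0 r g s) (hr : r = Mm^[n] e0) :
    s = Mm^[n] g := by
  obtain ⟨_, _, _, m, h1, h2⟩ := h
  have h3 : m + 1 = n := iter_inj fc_e0 (h1.symm.trans hr)
  rw [h2, h3]

private theorem p4_double {n : ℕ} {r s : Fin 3 → ℕ} (h : P4 e0 r r s) (hr : r = Mm^[n] e0) :
    s = Mm^[2 * n] e0 := by
  rw [p4_iter h hr, two_mul, Function.iterate_add_apply, ← hr]

theorem mulR_sound {c d k : ℕ} (hc : 1 ≤ c) (hd : 1 ≤ d) (hk : 1 ≤ k) (h : MulR c d k) :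
    c * d = k := by
  obtain ⟨z, t, h1, h2, h3, h4, h5, h6, h7, h8, h9, h10, h11, h12, h13, h14, hcz, hdz, hkz⟩ := h
  obtain ⟨_, _, _, m, hz0, _⟩ := h1
  obtain ⟨_, _, _, b, hz5, ht4⟩ := h6
  obtain ⟨h, hh⟩ : ∃ h, h = m + 1 := ⟨_, rfl⟩
  rw [← hh] at hz0
  have hz4 : z 4 = Mm^[16 * h] e0 := by
    have h16 := p4_double h5 (p4_double h4 (p4_double h3 (p4_double h2 hz0)))
    have e16 : 2 * (2 * (2 * (2 * h))) = 16 * h := by ring
    rwa [e16] at h16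
  have ht1 := p4_iter h7 hz4
  have ht3 := p4_iter h9 hz4
  have ht6 := p4_iter h11 hz4
  have ht8 := p4_iter h13 hz4
  rw [mm_smul, ← hz5] at ht4
  rw [ht1] at h8
  rw [ht3] at h10
  rw [ht6, ht4] at h12
  rw [ht8] at h14
  have E1 := congrArg toZ h8
  have E2 := congrArg toZ h10
  have E3 := congrArg toZ h12
  have E4 := congrArg toZ h14
  have ez : toZ (z 4) = toZ e0 ᵥ* (MM ^ (16 * h)) := by rw [hz4, toz_iter]
  simp only [toz_add, toz_smul, toz_iter, ez] at E1 E2 E3 E4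
  have hy : toZ (t 5) - (d : ℤ) • toZ (t 0) = 0 := by
    refine inj (a := 16 * h) (by omega) ?_
    rw [Matrix.sub_vecMul, Matrix.smul_vecMul, eq_sub_of_add_eq E3, eq_sub_of_add_eq E1]
    module
  have hy' : toZ (t 5) = (d : ℤ) • toZ (t 0) := sub_eq_zero.mp hy
  rw [hy'] at E4
  have key : ((k : ℤ) - c * d) = 0 := by
    refine small (h := h) (by omega) (n := (k : ℤ) - c * d)
      (q := (d : ℤ) • (toZ (t 2) - toZ e0) - (toZ (t 7) - toZ e0)) ?_ ?_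
    · rw [← hz0]
      have a1 : (c : ℤ) ≤ (z 0 0 : ℕ) := by exact_mod_cast hcz
      have a2 : (d : ℤ) ≤ (z 0 0 : ℕ) := by exact_mod_cast hdz
      have a3 : (k : ℤ) ≤ (z 0 0 : ℕ) := by exact_mod_cast hkz
      have b1 : (1 : ℤ) ≤ c := by exact_mod_cast hc
      have b2 : (1 : ℤ) ≤ d := by exact_mod_cast hd
      have b3 : (1 : ℤ) ≤ k := by exact_mod_cast hk
      rw [abs_le]
      constructor <;> nlinarith
    · rw [Matrix.sub_vecMul, Matrix.smul_vecMul, Matrix.sub_vecMul, Matrix.sub_vecMul]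
      have F2 : toZ (t 2) ᵥ* MM ^ (16 * h) = toZ (t 2) + toZ (t 0) + toZ e0 ᵥ* MM ^ (16 * h)
          - toZ e0 - (c : ℤ) • toZ e0 := by
        rw [← E2]; abel
      have F4 : toZ (t 7) ᵥ* MM ^ (16 * h) = toZ (t 7) + (d : ℤ) • toZ (t 0) + toZ e0 ᵥ* MM ^ (16 * h)
          - toZ e0 - (k : ℤ) • toZ e0 := by
        rw [← E4]; abel
      rw [F2, F4]
      module
  have : ((c * d : ℕ) : ℤ) = k := by push_cast; linarith
  exact_mod_cast this

end Pool.Agent.WLU
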