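import Pool.Agent.WLU.GoodP4
import Pool.Agent.WLU.MulS
import Pool.Agent.WLU.MulC

set_option autoImplicit false

/-!
# Multiplication is definable

`good_mulR`: the relation `MulR c d k` is an existential statement over the finite type `(Fin 6 ⊕ Fin 9) × Fin 3` of numbers
(`Good.exs`), a conjunction of instances of `good_p4`, vector equations and inequalities.
`good_mul`: `v i * v j = v k ↔ (v i + 1) * (v j + 1) = v k + v i + v j + 1`, all factors are `≥ 1`, so this is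
`MulR (v i + 1) (v j + 1) (v k + v i + v j + 1)` by `mulR_sound` and `mulR_complete`; then `Good.comp`.
-/

namespace Pool.Agent.WLU

/-- the body of `MulR` -/
private def Body (c d k : ℕ) (z : Fin 6 → Fin 3 → ℕ) (t : Fin 9 → Fin 3 → ℕ) : Prop :=
    P4 e0 (z 0) e0 (z 0) ∧ P4 e0 (z 0) (z 0) (z 1) ∧ P4 e0 (z 1) (z 1) (z 2) ∧
    P4 e0 (z 2) (z 2) (z 3) ∧ P4 e0 (z 3) (z 3) (z 4) ∧
    P4 e0 (z 5) (d • e0) (t 4) ∧
    P4 e0 (z 4) (t 0) (t 1) ∧ t 1 + e0 = t 0 + z 5 ∧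
    P4 e0 (z 4) (t 2) (t 3) ∧ t 3 + c • e0 + e0 = t 2 + t 0 + z 4 ∧
    P4 e0 (z 4) (t 5) (t 6) ∧ t 6 + d • e0 = t 5 + t 4 ∧
    P4 e0 (z 4) (t 7) (t 8) ∧ t 8 + k • e0 + e0 = t 7 + t 5 + z 4 ∧
    c ≤ z 0 0 ∧ d ≤ z 0 0 ∧ k ≤ z 0 0

private abbrev VV : Type := Fin 3 ⊕ ((Fin 6 ⊕ Fin 9) × Fin 3)

private theorem gm_z (i : Fin 6) (x : Fin 3) : GoodFn (fun w : VV → ℕ => w (Sum.inr (Sum.inl i, x))) :=
  goodFn_proj _

private theorem gm_t (j : Fin 9) (x : Fin 3) : GoodFn (fun w : VV → ℕ => w (Sum.inr (Sum.inr j, x))) :=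
  goodFn_proj _

private theorem gm_e (x : Fin 3) : GoodFn (fun _ : VV → ℕ => e0 x) := goodFn_const _

private theorem gm_d (n : Fin 3) (x : Fin 3) : GoodFn (fun w : VV → ℕ => (w (Sum.inl n) • e0) x) := by
  have h1 : GoodFn (fun w : VV → ℕ => e0 x * w (Sum.inl n)) := goodFn_cmul (e0 x) (goodFn_proj _)
  have h2 : (fun w : VV → ℕ => (w (Sum.inl n) • e0) x) = fun w => e0 x * w (Sum.inl n) := by
    funext w
    exact mul_comm (w (Sum.inl n)) (e0 x)
  rw [h2]
  exact h1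

private theorem gm_eq {f g : (VV → ℕ) → Fin 3 → ℕ} (hf : ∀ x, GoodFn (fun w => f w x))
    (hg : ∀ x, GoodFn (fun w => g w x)) : Good {w : VV → ℕ | f w = g w} :=
  (good_forall fun x => good_eq (hf x) (hg x)).ext fun _ =>
    ⟨fun h => funext h, fun h x => congrFun h x⟩

private theorem gm_body : Good {w : VV → ℕ | Body (w (Sum.inl 0)) (w (Sum.inl 1)) (w (Sum.inl 2))
    (fun i x => w (Sum.inr (Sum.inl i, x))) (fun j x => w (Sum.inr (Sum.inr j, x)))} := by
  refine good_and (good_p4 gm_e (gm_z 0) gm_e (gm_z 0)) ?_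
  refine good_and (good_p4 gm_e (gm_z 0) (gm_z 0) (gm_z 1)) ?_
  refine good_and (good_p4 gm_e (gm_z 1) (gm_z 1) (gm_z 2)) ?_
  refine good_and (good_p4 gm_e (gm_z 2) (gm_z 2) (gm_z 3)) ?_
  refine good_and (good_p4 gm_e (gm_z 3) (gm_z 3) (gm_z 4)) ?_
  refine good_and (good_p4 gm_e (gm_z 5) (gm_d 1) (gm_t 4)) ?_
  refine good_and (good_p4 gm_e (gm_z 4) (gm_t 0) (gm_t 1)) ?_
  refine good_and (gm_eq (fun x => goodFn_add (gm_t 1 x) (gm_e x))
    (fun x => goodFn_add (gm_t 0 x) (gm_z 5 x))) ?_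
  refine good_and (good_p4 gm_e (gm_z 4) (gm_t 2) (gm_t 3)) ?_
  refine good_and (gm_eq (fun x => goodFn_add (goodFn_add (gm_t 3 x) (gm_d 0 x)) (gm_e x))
    (fun x => goodFn_add (goodFn_add (gm_t 2 x) (gm_t 0 x)) (gm_z 4 x))) ?_
  refine good_and (good_p4 gm_e (gm_z 4) (gm_t 5) (gm_t 6)) ?_
  refine good_and (gm_eq (fun x => goodFn_add (gm_t 6 x) (gm_d 1 x))
    (fun x => goodFn_add (gm_t 5 x) (gm_t 4 x))) ?_
  refine good_and (good_p4 gm_e (gm_z 4) (gm_t 7) (gm_t 8)) ?_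
  refine good_and (gm_eq (fun x => goodFn_add (goodFn_add (gm_t 8 x) (gm_d 2 x)) (gm_e x))
    (fun x => goodFn_add (goodFn_add (gm_t 7 x) (gm_t 5 x)) (gm_z 4 x))) ?_
  refine good_and (good_le (goodFn_proj _) (gm_z 0 0)) ?_
  exact good_and (good_le (goodFn_proj _) (gm_z 0 0)) (good_le (goodFn_proj _) (gm_z 0 0))

theorem good_mulR : Good {v : Fin 3 → ℕ | MulR (v 0) (v 1) (v 2)} := by
  refine (Good.exs gm_body).ext fun v => ?_
  constructor
  · rintro ⟨t, ht⟩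
    exact ⟨fun i x => t (Sum.inl i, x), fun j x => t (Sum.inr j, x), ht⟩
  · rintro ⟨z, t, h⟩
    exact ⟨fun p => Sum.elim (fun i => z i p.2) (fun j => t j p.2) p.1, h⟩

theorem good_mul {ι : Type} (i j k : ι) : Good {v : ι → ℕ | v i * v j = v k} := by
  have h := Good.comp good_mulR (ι := ι)
    (F := ![fun v => v i + 1, fun v => v j + 1, fun v => v k + v i + v j + 1]) (by
      intro x
      fin_cases x
      · exact goodFn_add (goodFn_proj i) (goodFn_const 1)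
      · exact goodFn_add (goodFn_proj j) (goodFn_const 1)
      · exact goodFn_add (goodFn_add (goodFn_add (goodFn_proj k) (goodFn_proj i)) (goodFn_proj j))
          (goodFn_const 1))
  refine h.ext fun v => ?_
  show MulR (v i + 1) (v j + 1) (v k + v i + v j + 1) ↔ v i * v j = v k
  constructor
  · intro h1
    have h2 := mulR_sound (by omega) (by omega) (by omega) h1
    have h3 : (v i + 1) * (v j + 1) = v i * v j + v i + v j + 1 := by ring
    omega
  · intro h1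
    have h2 := mulR_complete (c := v i + 1) (d := v j + 1) (by omega) (by omega)
    have h3 : (v i + 1) * (v j + 1) = v k + v i + v j + 1 := by
      rw [← h1]
      ring
    rwa [h3] at h2

end Pool.Agent.WLU
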