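import Pool.Agent.WLU.Core
import Pool.Agent.WLU.Back

set_option autoImplicit false

/-!
# The word system is equivalent to `Orb`

Plan. `→`: `core` with `X = Finset.univ` (the sum is the right side, `Fin.sum_univ_three`); the word `w` contains all letters and
`run w f x + (U x).length = u.length = r x + (U x).length`. `←`: `back` with `w`, `w.toFinset = Finset.univ`.
-/

namespace Pool.Agent.WLU

theorem ws_iff {f r : Fin 3 → ℕ} (hf : ∀ x, 1 ≤ f x) : WS f r ↔ Orb f r := by
  constructor
  · rintro ⟨u, U, V, W, h1, h2, h3, h4⟩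
    have hc := (core f hf u.length Finset.univ u U V W rfl (fun x _ => h1 x) (fun x _ => h2 x)).2
    have hs : ∑ x ∈ (Finset.univ : Finset (Fin 3)), ((U x).length + f x) = u.length := by
      rw [Fin.sum_univ_three, h3]
      ring
    obtain ⟨w, hw1, hw2, _⟩ := hc hs
    refine ⟨w, fun x => (hw1 x).mpr (Finset.mem_univ x), ?_⟩
    funext x
    have h5 := hw2 x (Finset.mem_univ x)
    have h6 := h4 x
    omega
  · rintro ⟨w, hw, hr⟩
    obtain ⟨u, U, V, W, h1, h2, h3, _, h5⟩ := back f hf w
    refine ⟨u, U, V, W, fun x => h1 x (hw x), fun x => h2 x (hw x), ?_, ?_⟩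
    · have hu : w.toFinset = Finset.univ := by
        ext x
        simp [hw x]
      rw [hu, Fin.sum_univ_three] at h5
      omega
    · intro x
      rw [← hr]
      exact h3 x (hw x)

end Pool.Agent.WLU
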