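import Pool.Agent.WLU.GoodFn
import Pool.Agent.WLU.WsIff

set_option autoImplicit false

/-!
# The orbit relation is definable

Coordinates: `v (0, x) = f x`, `v (1, x) = r x`. By `ws_iff` the set is `{v | (∀ x, 1 ≤ f x) ∧ WS f r}`, which is defined by
word equations in auxiliary words `u`, `nu`, `U x`, `V x`, `W x`, `A x` (a power of `l1 x`), `C x = al x (f x)`, `N x` (of the length
of `U x`).
-/

namespace Pool.Agent.WLU

private inductive OV : Type
  | u : OV
  | nu : OV
  | U (x : Fin 3) : OV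
  | V (x : Fin 3) : OV
  | W (x : Fin 3) : OV
  | A (x : Fin 3) : OV
  | C (x : Fin 3) : OV
  | N (x : Fin 3) : OV

private abbrev OT : Type := (Fin 2 × Fin 3) ⊕ OV

private def aux (c : OV) : Fin 6 ⊕ OT := Sum.inr (Sum.inr c)

private def mn (i : Fin 2) (x : Fin 3) : Fin 6 ⊕ OT := Sum.inr (Sum.inl (i, x))

private def eqs : List (List (Fin 6 ⊕ OT) × List (Fin 6 ⊕ OT)) :=
  ([aux OV.nu], [aux (OV.N 0), aux (OV.N 1), aux (OV.N 2), mn 0 0, mn 0 1, mn 0 2]) ::
  (List.finRange 3).flatMap (fun x =>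
    [([aux (OV.A x), Sum.inl (l1 x)], [Sum.inl (l1 x), aux (OV.A x)]),
     ([aux (OV.C x)], [Sum.inl (l0 x), aux (OV.A x)]),
     ([aux OV.u], [aux (OV.U x), aux (OV.C x), aux (OV.V x)]),
     ([aux OV.u], [aux (OV.W x), aux (OV.C x), aux (OV.U x)]),
     ([mn 1 x, aux (OV.N x)], [aux OV.nu])])

private def lens : List (OT × OT) :=
  (Sum.inr OV.nu, Sum.inr OV.u) ::
  (List.finRange 3).flatMap (fun x => [(Sum.inr (OV.C x), Sum.inl (0, x)), (Sum.inr (OV.N x), Sum.inr (OV.U x))])

private theorem sol_iff (v : Fin 2 × Fin 3 → ℕ) (τ : OV → List (Fin 6)) :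
    Sol eqs lens (Sum.elim (fun i => nw (v i)) τ) ↔
      (τ OV.nu = τ (OV.N 0) ++ (τ (OV.N 1) ++ (τ (OV.N 2) ++ (nw (v (0, 0)) ++ (nw (v (0, 1)) ++ nw (v (0, 2)))))) ∧
        (τ OV.nu).length = (τ OV.u).length) ∧
      ∀ x : Fin 3, τ (OV.A x) ++ [l1 x] = [l1 x] ++ τ (OV.A x) ∧ τ (OV.C x) = l0 x :: τ (OV.A x) ∧
        τ OV.u = τ (OV.U x) ++ (τ (OV.C x) ++ τ (OV.V x)) ∧ τ OV.u = τ (OV.W x) ++ (τ (OV.C x) ++ τ (OV.U x)) ∧
        nw (v (1, x)) ++ τ (OV.N x) = τ OV.nu ∧ (τ (OV.C x)).length = v (0, x) ∧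
        (τ (OV.N x)).length = (τ (OV.U x)).length := by
  constructor
  · rintro ⟨h1, h2⟩
    have e0 := h1 _ (List.mem_cons_self ..)
    have f0 := h2 _ (List.mem_cons_self ..)
    refine ⟨⟨by simpa [ev, aux, mn] using e0, by simpa using f0⟩, fun x => ?_⟩
    have hx : x ∈ List.finRange 3 := List.mem_finRange x
    have g1 := h1 _ (List.mem_cons_of_mem _ (List.mem_flatMap.2 ⟨x, hx, List.mem_cons_self ..⟩))
    have g2 := h1 _ (List.mem_cons_of_mem _ (List.mem_flatMap.2 ⟨x, hx, List.mem_cons_of_mem _ (List.mem_cons_self ..)⟩))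
    have g3 := h1 _ (List.mem_cons_of_mem _ (List.mem_flatMap.2 ⟨x, hx, List.mem_cons_of_mem _
      (List.mem_cons_of_mem _ (List.mem_cons_self ..))⟩))
    have g4 := h1 _ (List.mem_cons_of_mem _ (List.mem_flatMap.2 ⟨x, hx, List.mem_cons_of_mem _
      (List.mem_cons_of_mem _ (List.mem_cons_of_mem _ (List.mem_cons_self ..)))⟩))
    have g5 := h1 _ (List.mem_cons_of_mem _ (List.mem_flatMap.2 ⟨x, hx, List.mem_cons_of_mem _
      (List.mem_cons_of_mem _ (List.mem_cons_of_mem _ (List.mem_cons_of_mem _ (List.mem_cons_self ..))))⟩))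
    have k1 := h2 _ (List.mem_cons_of_mem _ (List.mem_flatMap.2 ⟨x, hx, List.mem_cons_self ..⟩))
    have k2 := h2 _ (List.mem_cons_of_mem _ (List.mem_flatMap.2 ⟨x, hx, List.mem_cons_of_mem _ (List.mem_cons_self ..)⟩))
    refine ⟨by simpa [ev, aux, mn] using g1, by simpa [ev, aux, mn] using g2, by simpa [ev, aux, mn] using g3,
      by simpa [ev, aux, mn] using g4, by simpa [ev, aux, mn] using g5, by simpa [nw_length] using k1,
      by simpa using k2⟩
  · rintro ⟨⟨e0, f0⟩, h⟩
    refine ⟨fun e he => ?_, fun p hp => ?_⟩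
    · rcases List.mem_cons.1 he with rfl | he
      · simpa [ev, aux, mn] using e0
      · obtain ⟨x, _, hx⟩ := List.mem_flatMap.1 he
        obtain ⟨g1, g2, g3, g4, g5, _, _⟩ := h x
        simp only [List.mem_cons, List.not_mem_nil, or_false] at hx
        rcases hx with rfl | rfl | rfl | rfl | rfl
        · simpa [ev, aux, mn] using g1
        · simpa [ev, aux, mn] using g2
        · simpa [ev, aux, mn] using g3
        · simpa [ev, aux, mn] using g4
        · simpa [ev, aux, mn] using g5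
    · rcases List.mem_cons.1 hp with rfl | hp
      · simpa using f0
      · obtain ⟨x, _, hx⟩ := List.mem_flatMap.1 hp
        obtain ⟨_, _, _, _, _, k1, k2⟩ := h x
        simp only [List.mem_cons, List.not_mem_nil, or_false] at hx
        rcases hx with rfl | rfl
        · simpa [nw_length] using k1
        · simpa using k2

private def sl (f : Fin 3 → ℕ) (u : List (Fin 6)) (U V W : Fin 3 → List (Fin 6)) : OV → List (Fin 6)
  | OV.u => u
  | OV.nu => nw u.length
  | OV.U x => U x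
  | OV.V x => V x
  | OV.W x => W x
  | OV.A x => List.replicate (f x - 1) (l1 x)
  | OV.C x => al x (f x)
  | OV.N x => nw (U x).length

theorem good_orb : Good {v : Fin 2 × Fin 3 → ℕ |
    (∀ x, 1 ≤ v (0, x)) ∧ Orb (fun x => v (0, x)) (fun x => v (1, x))} := by
  refine ⟨OV, eqs, lens, fun v => ?_⟩
  constructor
  · rintro ⟨hf, hO⟩
    obtain ⟨u, U, V, W, hU, hW, hlen, hr⟩ := (ws_iff (f := fun x => v (0, x)) hf).2 hO
    refine ⟨sl (fun x => v (0, x)) u U V W, (sol_iff _ _).2 ⟨⟨?_, ?_⟩, fun x => ⟨?_, ?_, ?_, ?_, ?_, ?_, ?_⟩⟩⟩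
    · simp only [sl, nw_add]
      congr 1
      simp only at hlen
      omega
    · simp only [sl, nw_length]
    · exact (comm_iff _ _).2 ⟨_, rfl⟩
    · rfl
    · exact hU x
    · exact hW x
    · simp only [sl, nw_add]
      congr 1
      exact hr x
    · have := hf x
      simp only [sl, al, List.length_cons, List.length_replicate]
      omega
    · simp only [sl, nw_length]
  · rintro ⟨τ, hτ⟩
    obtain ⟨⟨e0, f0⟩, h⟩ := (sol_iff _ _).1 hτ
    have hf : ∀ x, 1 ≤ v (0, x) := by
      intro x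
      obtain ⟨_, h2, _, _, _, h6, _⟩ := h x
      rw [← h6, h2, List.length_cons]
      omega
    refine ⟨hf, (ws_iff (f := fun x => v (0, x)) hf).1 ?_⟩
    have hC : ∀ x, τ (OV.C x) = al x (v (0, x)) := by
      intro x
      obtain ⟨h1, h2, _, _, _, h6, _⟩ := h x
      obtain ⟨n, hn⟩ := (comm_iff _ _).1 h1
      rw [hn] at h2
      rw [h2, List.length_cons, List.length_replicate] at h6
      rw [h2, al, ← h6, Nat.add_sub_cancel]
    refine ⟨τ OV.u, fun x => τ (OV.U x), fun x => τ (OV.V x), fun x => τ (OV.W x), ?_, ?_, ?_, ?_⟩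
    · intro x
      obtain ⟨_, _, h3, _⟩ := h x
      rw [hC x] at h3
      exact h3
    · intro x
      obtain ⟨_, _, _, h4, _⟩ := h x
      rw [hC x] at h4
      exact h4
    · have e1 := congrArg List.length e0
      simp only [List.length_append, nw_length] at e1
      have l0 := (h 0).2.2.2.2.2.2
      have l1 := (h 1).2.2.2.2.2.2
      have l2 := (h 2).2.2.2.2.2.2
      simp only
      omega
    · intro x
      obtain ⟨_, _, _, _, h5, _, h7⟩ := h x
      have e1 := congrArg List.length h5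
      simp only [List.length_append, nw_length] at e1
      simp only
      omega

end Pool.Agent.WLU
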