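import Pool.Agent.WLU.GoodOrb
import Pool.Agent.WLU.Cpl

set_option autoImplicit false

/-!
# The relation `P4` is definable

Plan. `good_ex`: conjunction of three instances of `good_orb` with `Good.comp`: the functions are `F 0 x`, `F 1 x` and the coordinates
of `f + Bm f` etc. (sums of coordinates: `goodFn_add`; `fin_cases x`; `Bm f = ![f 0 + f 1, f 0 + f 2, f 0]`,
`Bm (Bm f) = ![2 f 0 + f 1 + f 2, 2 f 0 + f 1, f 0 + f 1]`); for `f` in the cone `Fc` the conditions `1 ≤ …` of `good_orb` hold.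
`good_p4`: `p4_iff`, `Fc` and `≤` are conjunctions of inequalities (`good_lt`, `good_le`, `good_forall`), three instances of `good_ex`.
-/

namespace Pool.Agent.WLU

private theorem gp_orb {ι : Type} {f r : Fin 3 → (ι → ℕ) → ℕ} (hf : ∀ x, GoodFn (f x))
    (hr : ∀ x, GoodFn (r x)) :
    Good {v : ι → ℕ | (∀ x, 1 ≤ f x v) ∧ Orb (fun x => f x v) (fun x => r x v)} :=
  Good.comp good_orb (F := fun j => (![f, r] : Fin 2 → Fin 3 → (ι → ℕ) → ℕ) j.1 j.2) (by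
    rintro ⟨i, x⟩
    fin_cases i
    · exact hf x
    · exact hr x)

private theorem gp_b {ι : Type} {f : Fin 3 → (ι → ℕ) → ℕ} (hf : ∀ x, GoodFn (f x)) (x : Fin 3) :
    GoodFn (fun v => ((fun x => f x v) + Bm (fun x => f x v)) x) := by
  fin_cases x
  · show GoodFn (fun v => f 0 v + (f 0 v + f 1 v))
    exact goodFn_add (hf 0) (goodFn_add (hf 0) (hf 1))
  · show GoodFn (fun v => f 1 v + (f 0 v + f 2 v))
    exact goodFn_add (hf 1) (goodFn_add (hf 0) (hf 2))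
  · show GoodFn (fun v => f 2 v + f 0 v)
    exact goodFn_add (hf 2) (hf 0)

private theorem gp_bb {ι : Type} {f : Fin 3 → (ι → ℕ) → ℕ} (hf : ∀ x, GoodFn (f x)) (x : Fin 3) :
    GoodFn (fun v => ((fun x => f x v) + Bm (Bm (fun x => f x v))) x) := by
  fin_cases x
  · show GoodFn (fun v => f 0 v + ((f 0 v + f 1 v) + (f 0 v + f 2 v)))
    exact goodFn_add (hf 0)
      (goodFn_add (goodFn_add (hf 0) (hf 1)) (goodFn_add (hf 0) (hf 2)))
  · show GoodFn (fun v => f 1 v + ((f 0 v + f 1 v) + f 0 v))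
    exact goodFn_add (hf 1) (goodFn_add (goodFn_add (hf 0) (hf 1)) (hf 0))
  · show GoodFn (fun v => f 2 v + (f 0 v + f 1 v))
    exact goodFn_add (hf 2) (goodFn_add (hf 0) (hf 1))

private theorem gp_fc {ι : Type} {f : Fin 3 → (ι → ℕ) → ℕ} (hf : ∀ x, GoodFn (f x)) :
    Good {v : ι → ℕ | Fc (fun x => f x v)} :=
  good_and (good_lt (goodFn_const 0) (hf 2)) (good_and (good_lt (hf 2) (hf 0))
    (good_and (good_lt (hf 0) (goodFn_add (hf 1) (hf 2)))
      (good_lt (hf 1) (goodFn_add (hf 0) (hf 2)))))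

private theorem gp_pos {f : Fin 3 → ℕ} (h : Fc f) (x : Fin 3) : 1 ≤ f x := by
  obtain ⟨h1, h2, h3, h4⟩ := h
  fin_cases x
  · show 1 ≤ f 0
    omega
  · show 1 ≤ f 1
    omega
  · show 1 ≤ f 2
    omega

private theorem gp_add {f g : Fin 3 → ℕ} (h : Fc f) (h' : Fc g) : Fc (f + g) := by
  obtain ⟨h1, h2, h3, h4⟩ := h
  obtain ⟨h5, h6, h7, h8⟩ := h'
  simp only [Fc, Pi.add_apply]
  omega

theorem good_ex {ι : Type} {f r : Fin 3 → (ι → ℕ) → ℕ} (hf : ∀ x, GoodFn (f x))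
    (hr : ∀ x, GoodFn (r x)) :
    Good {v : ι → ℕ | Fc (fun x => f x v) ∧ Ex (fun x => f x v) (fun x => r x v)} := by
  refine (good_and (gp_fc hf) (good_and (gp_orb hf hr)
    (good_and (gp_orb (gp_b hf) (gp_b hr)) (gp_orb (gp_bb hf) (gp_bb hr))))).ext ?_
  intro v
  constructor
  · rintro ⟨h1, ⟨-, h2⟩, ⟨-, h3⟩, ⟨-, h4⟩⟩
    exact ⟨h1, h2, h3, h4⟩
  · rintro ⟨h1, h2, h3, h4⟩
    refine ⟨h1, ⟨gp_pos h1, h2⟩, ⟨fun x => ?_, h3⟩, ⟨fun x => ?_, h4⟩⟩
    · exact (gp_pos h1 x).trans (Nat.le_add_right _ _)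
    · exact (gp_pos h1 x).trans (Nat.le_add_right _ _)

theorem good_p4 {ι : Type} {f r g s : Fin 3 → (ι → ℕ) → ℕ} (hf : ∀ x, GoodFn (f x))
    (hr : ∀ x, GoodFn (r x)) (hg : ∀ x, GoodFn (g x)) (hs : ∀ x, GoodFn (s x)) :
    Good {v : ι → ℕ | P4 (fun x => f x v) (fun x => r x v) (fun x => g x v) (fun x => s x v)} := by
  have hfg : ∀ x, GoodFn (fun v => f x v + g x v) := fun x => goodFn_add (hf x) (hg x)
  have hrs : ∀ x, GoodFn (fun v => r x v + s x v) := fun x => goodFn_add (hr x) (hs x)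
  refine (good_and (good_ex hf hr) (good_and (good_ex hg hs) (good_and (good_ex hfg hrs)
    (good_and (good_forall fun x => good_le (hf x) (hg x))
      (good_forall fun x => good_le (hr x) (hs x)))))).ext ?_
  intro v
  show _ ↔ P4 (fun x => f x v) (fun x => r x v) (fun x => g x v) (fun x => s x v)
  rw [p4_iff]
  constructor
  · rintro ⟨⟨h1, h2⟩, ⟨h3, h4⟩, ⟨-, h5⟩, h6, h7⟩
    exact ⟨h1, h3, fun x => h6 x, fun x => h7 x, h2, h4, h5⟩
  · rintro ⟨h1, h3, h6, h7, h2, h4, h5⟩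
    exact ⟨⟨h1, h2⟩, ⟨h3, h4⟩, ⟨gp_add h1 h3, h5⟩, fun x => h6 x, fun x => h7 x⟩

end Pool.Agent.WLU
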