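import Pool.Agent.WLU.GoodMul
import Pool.Agent.Helper76.BQ

set_option autoImplicit false

/-!
# Zero sets of polynomials are definable

Plan. Copy `goodFn_mul` and `good_poly` from `Pool/Agent/Helper76/Good.lean`.
-/

namespace Pool.Agent.WLU

theorem goodFn_mul {ι : Type} {f g : (ι → ℕ) → ℕ} (hf : GoodFn f) (hg : GoodFn g) :
    GoodFn (fun v => f v * g v) := goodFn_op (fun _ i j k => good_mul i j k) hf hg

/-- zero sets of integer polynomials are definable -/
theorem good_poly {γ : Type} (p : Poly γ) : Good {v : γ → ℕ | p v = 0} := by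
  have h : ∃ f g : (γ → ℕ) → ℕ, GoodFn f ∧ GoodFn g ∧ ∀ v, p v = (f v : ℤ) - g v := by
    induction p using Poly.induction with
    | H1 i => exact ⟨fun v => v i, fun _ => 0, goodFn_proj i, goodFn_const 0, fun v => by simp⟩
    | H2 n =>
      refine ⟨fun _ => n.toNat, fun _ => (-n).toNat, goodFn_const _, goodFn_const _, fun v => ?_⟩
      rw [Poly.const_apply]
      change n = ((n.toNat : ℕ) : ℤ) - (((-n).toNat : ℕ) : ℤ)
      omega
    | H3 f g hf hg =>
      obtain ⟨f1, f2, h1, h2, hf⟩ := hf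
      obtain ⟨g1, g2, h3, h4, hg⟩ := hg
      refine ⟨_, _, goodFn_add h1 h4, goodFn_add h2 h3, fun v => ?_⟩
      rw [Poly.sub_apply, hf, hg]
      push_cast
      ring
    | H4 f g hf hg =>
      obtain ⟨f1, f2, h1, h2, hf⟩ := hf
      obtain ⟨g1, g2, h3, h4, hg⟩ := hg
      refine ⟨_, _, goodFn_add (goodFn_mul h1 h3) (goodFn_mul h2 h4),
        goodFn_add (goodFn_mul h1 h4) (goodFn_mul h2 h3), fun v => ?_⟩
      rw [Poly.mul_apply, hf, hg]
      push_cast
      ring
  obtain ⟨f, g, hf, hg, h⟩ := h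
  refine (good_eq hf hg).ext fun v => ?_
  rw [Set.mem_ofPred_eq, Set.mem_ofPred_eq, h, sub_eq_zero, Nat.cast_inj]

end Pool.Agent.WLU
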