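import Pool.Agent.WLU.Run

set_option autoImplicit false

/-!
# The key lemma: the three orbit conditions force the powers of `Mm`

Write `s = (x, y, z) = run w0 f`, `t = s + Bm s = (2x+y, x+y+z, x+z) = run w1 (f + Bm f)`,
`u = s + Bm (Bm s) = (3x+y+z, 2x+2y, x+y+z) = run w2 (f + Bm (Bm f))`.

Digit lemma: if `w = w' ++ [x]` and `Dl g`, then `v = run w g = R x v'` with `v' = run w' g`, `Dl v'` (`dl_run`), hence `v x` is smaller
than the two other coordinates and `3 * v x < ` their sum.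
(0) If one of the words is empty then `s = f` (from `t = f + Bm f` or `u = f + Bm (Bm f)` by `omega`).
(1) All three are nonempty: the last letter of `w1` is `2` (others: `3(2x+y) < 2x+y+2z` or `3(x+y+z) < 3x+y+z`, contradiction with
`z < x + y`), so `3(x+z) < 3x+2y+z`, i.e. `z < y`; the last letter of `w2` is `2` (`3(3x+y+z)<3x+3y+z` no, `3(2x+2y)<4x+y·…` no), so
`z < x`; hence the last letter of `w0` is `2`. Peel it: `s' = (x', y', z') = (x-z, y-z, z)`, `t' = (x'+y'+z', y'+z', x'+2z')`,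
`u' = (2x'+2z', x'+y'+z', x'+y'+3z')`. If `w0' = []`: `s' = f`, `t' ≥ f + Bm f` (`le_run`) gives `x'+y'+z' ≥ 2x'+y'`, contradiction
with `f 2 < f 0`. If `w1' = []`: `t' = f + Bm f` gives `x' = f 0 - f 2 < f 0`, contradiction with `f ≤ s'`. If `w2' = []`:
`u' = f + Bm (Bm f)` gives `2z' = f 2 - f 0 - f 1 < 0`.
(2) All three nonempty: the last letters are `1`: `t'`: `y' < x'` ; `u'`: `y' < z'`. Peel: `s'' = (x'', y'', z'') = (x'-y', y', z'-y')`,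
`t'' = (x''+y'', 2y''+z'', x''+y''+z'')`, `u'' = (x''+y''+z'', x''+3y''+z'', 2y''+2z'')`. If `w0'' = []`: `x''+y'' ≥ 2x''+y''`,
contradiction. `w1'' = []`: `t'' = f + Bm f` gives `z'' = f 2 - f 0 - f 1 < 0`. `w2'' = []`: `u'' = f + Bm (Bm f)` gives
`2y'' = f 1 - f 0 - f 2 < 0`.
(3) All three nonempty: the last letters are `0`: `t''`: `x'' < z''`, `u''`: `x'' < y''`. Peel: `s''' = (x'', y''-x'', z''-x'')`,
`t''' = s''' + Bm s'''`, `u''' = s''' + Bm (Bm s''')`, `s = run [0,1,2] s''' = Mm s'''`. Induction on the length of `w0`.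
All the contradictions are `omega`.

`ex_iff`: `→`: `key` gives `r = Mm^[m] f`; `m ≠ 0` because `w0 ≠ []` and `run` strictly increases (`f 0 < run w f 0` or: coordinate sum)
for `Dl f` and `w` containing all letters. `←`: `w = (List.replicate (m+1) [0,1,2]).flatten` for all three (`run_abc`, `mm_bm`, `mm_add`).
-/

namespace Pool.Agent.WLU

/-- coordinates of `s + Bm s`. -/
private theorem k_tco (s : Fin 3 → ℕ) : (s + Bm s) 0 = 2 * s 0 + s 1 ∧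
    (s + Bm s) 1 = s 0 + s 1 + s 2 ∧ (s + Bm s) 2 = s 0 + s 2 := by
  refine ⟨?_, ?_, ?_⟩ <;> simp [Bm] <;> omega

/-- coordinates of `s + Bm (Bm s)`. -/
private theorem k_uco (s : Fin 3 → ℕ) : (s + Bm (Bm s)) 0 = 3 * s 0 + s 1 + s 2 ∧
    (s + Bm (Bm s)) 1 = 2 * s 0 + 2 * s 1 ∧ (s + Bm (Bm s)) 2 = s 0 + s 1 + s 2 := by
  refine ⟨?_, ?_, ?_⟩ <;> simp [Bm] <;> omega

private theorem k_ext {s f : Fin 3 → ℕ} (h0 : s 0 = f 0) (h1 : s 1 = f 1) (h2 : s 2 = f 2) :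
    s = f := by
  funext i
  fin_cases i
  · exact h0
  · exact h1
  · exact h2

private theorem k_R (x : Fin 3) (v : Fin 3 → ℕ) :
    (x = 0 ∧ R x v 0 = v 0 ∧ R x v 1 = v 1 + v 0 ∧ R x v 2 = v 2 + v 0) ∨
    (x = 1 ∧ R x v 0 = v 0 + v 1 ∧ R x v 1 = v 1 ∧ R x v 2 = v 2 + v 1) ∨
    (x = 2 ∧ R x v 0 = v 0 + v 2 ∧ R x v 1 = v 1 + v 2 ∧ R x v 2 = v 2) := by
  fin_cases x <;> simp [R]

private theorem k_peel {g : Fin 3 → ℕ} (hg : Dl g) (w : List (Fin 3)) :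
    (w = [] ∧ run w g = g) ∨ ∃ (w' : List (Fin 3)) (x : Fin 3), w = w' ++ [x] ∧ Dl (run w' g) ∧
      (g 0 ≤ run w' g 0 ∧ g 1 ≤ run w' g 1 ∧ g 2 ≤ run w' g 2) ∧
      ((x = 0 ∧ run w g 0 = run w' g 0 ∧ run w g 1 = run w' g 1 + run w' g 0 ∧
          run w g 2 = run w' g 2 + run w' g 0) ∨
       (x = 1 ∧ run w g 0 = run w' g 0 + run w' g 1 ∧ run w g 1 = run w' g 1 ∧
          run w g 2 = run w' g 2 + run w' g 1) ∨
       (x = 2 ∧ run w g 0 = run w' g 0 + run w' g 2 ∧ run w g 1 = run w' g 1 + run w' g 2 ∧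
          run w g 2 = run w' g 2)) := by
  rcases List.eq_nil_or_concat w with h | ⟨w', x, h⟩
  · left
    subst h
    exact ⟨rfl, rfl⟩
  · right
    rw [List.concat_eq_append] at h
    subst h
    refine ⟨w', x, rfl, dl_run hg w', ⟨le_run w' g 0, le_run w' g 1, le_run w' g 2⟩, ?_⟩
    rw [run_snoc]
    exact k_R x _

theorem key {f : Fin 3 → ℕ} (hf : Fc f) (n : ℕ) : ∀ (w0 w1 w2 : List (Fin 3)), w0.length = n →
    run w1 (f + Bm f) = run w0 f + Bm (run w0 f) →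
    run w2 (f + Bm (Bm f)) = run w0 f + Bm (Bm (run w0 f)) → ∃ m, run w0 f = Mm^[m] f := by
  induction n using Nat.strong_induction_on with
  | _ n ih =>
  intro w0 w1 w2 hn h1 h2
  have hf' := dl_of_fc hf
  have hg1 : Dl (f + Bm f) := dl_add hf' (dl_bm hf')
  have hg2 : Dl (f + Bm (Bm f)) := dl_add hf' (dl_bm (dl_bm hf'))
  obtain ⟨f0, f1, f2, f3⟩ := id hf
  obtain ⟨p0, p1, p2⟩ := k_tco f
  obtain ⟨q0, q1, q2⟩ := k_uco f
  have ds := dl_run hf' w0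
  obtain ⟨ds0, ds1, ds2, ds3, ds4, ds5⟩ := ds
  -- coordinates of `t` and `u`
  obtain ⟨t0, t1, t2⟩ := k_tco (run w0 f)
  rw [← h1] at t0 t1 t2
  obtain ⟨u0, u1, u2⟩ := k_uco (run w0 f)
  rw [← h2] at u0 u1 u2
  -- first letters
  rcases k_peel hf' w0 with ⟨hw, hs⟩ | ⟨w0', a, hw0, ds', ls', ha⟩
  · exact ⟨0, hs⟩
  rcases k_peel hg1 w1 with ⟨hw, hs⟩ | ⟨w1', b, hw1, dt', lt', hb⟩
  · rw [hs] at t0 t1 t2
    exact ⟨0, k_ext (by omega) (by omega) (by omega)⟩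
  rcases k_peel hg2 w2 with ⟨hw, hs⟩ | ⟨w2', c, hw2, du', lu', hc⟩
  · rw [hs] at u0 u1 u2
    exact ⟨0, k_ext (by omega) (by omega) (by omega)⟩
  obtain ⟨dt0, dt1, dt2, dt3, dt4, dt5⟩ := dt'
  obtain ⟨du0, du1, du2, du3, du4, du5⟩ := du'
  have ds'' := ds'
  obtain ⟨e0, e1, e2, e3, e4, e5⟩ := ds''
  rcases hb with ⟨hb, b0, b1, b2⟩ | ⟨hb, b0, b1, b2⟩ | ⟨hb, b0, b1, b2⟩
  · omega
  · omega
  rcases hc with ⟨hc, c0, c1, c2⟩ | ⟨hc, c0, c1, c2⟩ | ⟨hc, c0, c1, c2⟩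
  · omega
  · omega
  rcases ha with ⟨ha, a0, a1, a2⟩ | ⟨ha, a0, a1, a2⟩ | ⟨ha, a0, a1, a2⟩
  · omega
  · omega
  have T0 : run w1' (f + Bm f) 0 = run w0' f 0 + run w0' f 1 + run w0' f 2 := by omega
  have T1 : run w1' (f + Bm f) 1 = run w0' f 1 + run w0' f 2 := by omega
  have T2 : run w1' (f + Bm f) 2 = run w0' f 0 + 2 * run w0' f 2 := by omega
  have U0 : run w2' (f + Bm (Bm f)) 0 = 2 * run w0' f 0 + 2 * run w0' f 2 := by omega
  have U1 : run w2' (f + Bm (Bm f)) 1 = run w0' f 0 + run w0' f 1 + run w0' f 2 := by omega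
  have U2 : run w2' (f + Bm (Bm f)) 2 = run w0' f 0 + run w0' f 1 + 3 * run w0' f 2 := by omega
  clear t0 t1 t2 u0 u1 u2 a0 a1 a2 b0 b1 b2 c0 c1 c2 ds0 ds1 ds2 ds3 ds4 ds5 dt0 dt1 dt2 dt3 dt4 dt5
    du0 du1 du2 du3 du4 du5
  obtain ⟨l0, l1, l2⟩ := ls'
  obtain ⟨m0, m1, m2⟩ := lt'
  -- second letters
  rcases k_peel hf' w0' with ⟨hw, hs⟩ | ⟨w0'', a', hw0', ds', ls', ha'⟩
  · exfalso
    rw [hs] at T0
    omega
  rcases k_peel hg1 w1' with ⟨hw, hs⟩ | ⟨w1'', b', hw1', dt', lt', hb'⟩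
  · exfalso
    rw [hs] at T0 T1 T2
    omega
  rcases k_peel hg2 w2' with ⟨hw, hs⟩ | ⟨w2'', c', hw2', du', lu', hc'⟩
  · exfalso
    rw [hs] at U0 U1 U2
    omega
  obtain ⟨dt0, dt1, dt2, dt3, dt4, dt5⟩ := dt'
  obtain ⟨du0, du1, du2, du3, du4, du5⟩ := du'
  have ds'' := ds'
  obtain ⟨g0, g1, g2, g3, g4, g5⟩ := ds''
  rcases hb' with ⟨hb', b0, b1, b2⟩ | ⟨hb', b0, b1, b2⟩ | ⟨hb', b0, b1, b2⟩
  · omega
  swap
  · omega
  rcases hc' with ⟨hc', c0, c1, c2⟩ | ⟨hc', c0, c1, c2⟩ | ⟨hc', c0, c1, c2⟩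
  · omega
  swap
  · omega
  rcases ha' with ⟨ha', a0, a1, a2⟩ | ⟨ha', a0, a1, a2⟩ | ⟨ha', a0, a1, a2⟩
  · omega
  swap
  · omega
  have T0' : run w1'' (f + Bm f) 0 = run w0'' f 0 + run w0'' f 1 := by omega
  have T1' : run w1'' (f + Bm f) 1 = 2 * run w0'' f 1 + run w0'' f 2 := by omega
  have T2' : run w1'' (f + Bm f) 2 = run w0'' f 0 + run w0'' f 1 + run w0'' f 2 := by omega
  have U0' : run w2'' (f + Bm (Bm f)) 0 = run w0'' f 0 + run w0'' f 1 + run w0'' f 2 := by omega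
  have U1' : run w2'' (f + Bm (Bm f)) 1 = run w0'' f 0 + 3 * run w0'' f 1 + run w0'' f 2 := by
    omega
  have U2' : run w2'' (f + Bm (Bm f)) 2 = 2 * run w0'' f 1 + 2 * run w0'' f 2 := by omega
  clear T0 T1 T2 U0 U1 U2 a0 a1 a2 b0 b1 b2 c0 c1 c2 dt0 dt1 dt2 dt3 dt4 dt5
    du0 du1 du2 du3 du4 du5 e0 e1 e2 e3 e4 e5 l0 l1 l2 m0 m1 m2
  obtain ⟨l0, l1, l2⟩ := ls'
  obtain ⟨m0, m1, m2⟩ := lt'
  -- third letters
  rcases k_peel hf' w0'' with ⟨hw, hs⟩ | ⟨w0''', a'', hw0'', ds', ls', ha''⟩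
  · exfalso
    rw [hs] at T0'
    omega
  rcases k_peel hg1 w1'' with ⟨hw, hs⟩ | ⟨w1''', b'', hw1'', dt', lt', hb''⟩
  · exfalso
    rw [hs] at T0' T1' T2'
    omega
  rcases k_peel hg2 w2'' with ⟨hw, hs⟩ | ⟨w2''', c'', hw2'', du', lu', hc''⟩
  · exfalso
    rw [hs] at U0' U1' U2'
    omega
  obtain ⟨dt0, dt1, dt2, dt3, dt4, dt5⟩ := dt'
  obtain ⟨du0, du1, du2, du3, du4, du5⟩ := du'
  obtain ⟨e0, e1, e2, e3, e4, e5⟩ := ds'
  rcases hb'' with ⟨hb'', b0, b1, b2⟩ | ⟨hb'', b0, b1, b2⟩ | ⟨hb'', b0, b1, b2⟩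
  rotate_left
  · omega
  · omega
  rcases hc'' with ⟨hc'', c0, c1, c2⟩ | ⟨hc'', c0, c1, c2⟩ | ⟨hc'', c0, c1, c2⟩
  rotate_left
  · omega
  · omega
  rcases ha'' with ⟨ha'', a0, a1, a2⟩ | ⟨ha'', a0, a1, a2⟩ | ⟨ha'', a0, a1, a2⟩
  rotate_left
  · omega
  · omega
  have H1 : run w1''' (f + Bm f) = run w0''' f + Bm (run w0''' f) := by
    obtain ⟨v0, v1, v2⟩ := k_tco (run w0''' f)
    exact k_ext (by omega) (by omega) (by omega)
  have H2 : run w2''' (f + Bm (Bm f)) = run w0''' f + Bm (Bm (run w0''' f)) := by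
    obtain ⟨v0, v1, v2⟩ := k_uco (run w0''' f)
    exact k_ext (by omega) (by omega) (by omega)
  have hlen : w0'''.length < n := by
    rw [← hn, hw0, hw0', hw0'']
    simp only [List.length_append, List.length_cons, List.length_nil]
    omega
  obtain ⟨m, hm⟩ := ih _ hlen w0''' w1''' w2''' rfl H1 H2
  refine ⟨m + 1, ?_⟩
  rw [hw0, hw0', hw0'', ha, ha', ha'', run_snoc, run_snoc, run_snoc, Function.iterate_succ_apply',
    ← hm, ← run_abc]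
  rfl

private theorem k_rep (m : ℕ) (f : Fin 3 → ℕ) :
    run (List.replicate m [0, 1, 2]).flatten f = Mm^[m] f := by
  induction m generalizing f with
  | zero => rfl
  | succ m ih =>
    rw [List.replicate_succ, List.flatten_cons, run_append, run_abc, ih,
      Function.iterate_succ_apply]

theorem ex_iff {f r : Fin 3 → ℕ} (hf : Fc f) : Ex f r ↔ ∃ m, r = Mm^[m + 1] f := by
  constructor
  · rintro ⟨⟨w0, c0, r0⟩, ⟨w1, c1, r1⟩, ⟨w2, c2, r2⟩⟩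
    subst r0
    obtain ⟨m, hm⟩ := key hf w0.length w0 w1 w2 rfl r1 r2
    rcases Nat.eq_zero_or_pos m with h | h
    · exfalso
      subst h
      have hm' : run w0 f = f := hm
      rcases k_peel (dl_of_fc hf) w0 with ⟨hw, hs⟩ | ⟨w0', a, hw0, ds', ls', ha⟩
      · have := c0 0
        rw [hw] at this
        simp at this
      · obtain ⟨e0, e1, e2, e3, e4, e5⟩ := ds'
        rw [hm'] at ha
        omega
    · obtain ⟨k, rfl⟩ := Nat.exists_eq_succ_of_ne_zero h.ne'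
      exact ⟨k, hm⟩
  · rintro ⟨m, rfl⟩
    have hall : ∀ x : Fin 3, x ∈ (List.replicate (m + 1) ([0, 1, 2] : List (Fin 3))).flatten := by
      intro x
      rw [List.mem_flatten]
      refine ⟨[0, 1, 2], ?_, ?_⟩
      · rw [List.mem_replicate]
        exact ⟨Nat.succ_ne_zero m, rfl⟩
      · fin_cases x <;> simp
    refine ⟨⟨_, hall, k_rep _ _⟩, ⟨_, hall, ?_⟩, ⟨_, hall, ?_⟩⟩
    · rw [k_rep, mm_add, mm_bm]
    · rw [k_rep, mm_add, mm_bm, mm_bm]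

end Pool.Agent.WLU
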