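import Pool.Agent.WLU.Defs

set_option autoImplicit false

/-!
# Lemmas on the blocks `al x n`

All letters of the block `al x n` have type `x`, so blocks of different types do not overlap
(`pre_sep` for prefixes, `suf_sep` for suffixes).
-/

namespace Pool.Agent.WLU

private theorem li_ty0 (x : Fin 3) : ty (l0 x) = x := by
  fin_cases x <;> rfl

private theorem li_ty1 (x : Fin 3) : ty (l1 x) = x := by
  fin_cases x <;> rfl

theorem al_length (x : Fin 3) {n : ℕ} (hn : 1 ≤ n) : (al x n).length = n := by
  unfold al
  rw [List.length_cons, List.length_replicate]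
  omega

private theorem li_mem {x : Fin 3} {n : ℕ} {l : Fin 6} (h : l ∈ al x n) : ty l = x := by
  unfold al at h
  rcases List.mem_cons.1 h with h | h
  · rw [h, li_ty0]
  · rw [List.eq_of_mem_replicate h, li_ty1]

/-- the letters of the block in `P ++ (al x n ++ Q)` -/
private theorem li_get {u P Q : List (Fin 6)} {x : Fin 3} {n : ℕ} (hn : 1 ≤ n)
    (h : u = P ++ (al x n ++ Q)) {i : ℕ} (h1 : P.length ≤ i) (h2 : i < P.length + n) :
    ∃ l, u[i]? = some l ∧ ty l = x := by
  have hl := al_length x hn
  have h3 : i - P.length < (al x n).length := by omega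
  refine ⟨(al x n)[i - P.length], ?_, li_mem (List.getElem_mem h3)⟩
  rw [h, List.getElem?_append_right h1, List.getElem?_append_left h3, List.getElem?_eq_getElem h3]

theorem pre_sep {u U V U' V' : List (Fin 6)} {x y : Fin 3} {n m : ℕ} (hxy : x ≠ y)
    (hn : 1 ≤ n) (hm : 1 ≤ m) (h : u = U ++ (al x n ++ V)) (h' : u = U' ++ (al y m ++ V'))
    (hle : U.length ≤ U'.length) : ∃ V'', U' = U ++ (al x n ++ V'') := by
  have hlt : U.length + n ≤ U'.length := by
    by_contra hcon
    obtain ⟨l, h1, h2⟩ := li_get hn h hle (by omega)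
    obtain ⟨l', h3, h4⟩ := li_get hm h' (le_refl _) (by omega)
    rw [h1] at h3
    have : l = l' := by simpa using h3
    exact hxy (by rw [← h2, ← h4, this])
  have hp1 : (U ++ al x n) <+: u := ⟨V, by rw [h, List.append_assoc]⟩
  have hp2 : U' <+: u := ⟨al y m ++ V', h'.symm⟩
  have hp3 : (U ++ al x n) <+: U' := by
    refine List.prefix_of_prefix_length_le hp1 hp2 ?_
    rw [List.length_append, al_length x hn]
    exact hlt
  obtain ⟨V'', hV⟩ := hp3
  exact ⟨V'', by rw [← hV, List.append_assoc]⟩

theorem suf_sep {u U W U' W' : List (Fin 6)} {x y : Fin 3} {n m : ℕ} (hxy : x ≠ y)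
    (hn : 1 ≤ n) (hm : 1 ≤ m) (h : u = W ++ (al x n ++ U)) (h' : u = W' ++ (al y m ++ U'))
    (hle : U.length ≤ U'.length) : ∃ W'', U' = W'' ++ (al x n ++ U) := by
  have e1 : u.length = W.length + (n + U.length) := by
    rw [h, List.length_append, List.length_append, al_length x hn]
  have e2 : u.length = W'.length + (m + U'.length) := by
    rw [h', List.length_append, List.length_append, al_length y hm]
  have hlt : U.length + n ≤ U'.length := by
    by_contra hcon
    -- position just before `U'`
    obtain ⟨l, h1, h2⟩ := li_get (i := W'.length + m - 1) hn h (by omega) (by omega)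
    obtain ⟨l', h3, h4⟩ := li_get (i := W'.length + m - 1) hm h' (by omega) (by omega)
    rw [h1] at h3
    have : l = l' := by simpa using h3
    exact hxy (by rw [← h2, ← h4, this])
  have hp1 : (al x n ++ U) <:+ u := ⟨W, h.symm⟩
  have hp2 : U' <:+ u := ⟨W' ++ al y m, by rw [h', List.append_assoc]⟩
  have hp3 : (al x n ++ U) <:+ U' := by
    refine List.suffix_of_suffix_length_le hp1 hp2 ?_
    rw [List.length_append, al_length x hn]
    omega
  obtain ⟨W'', hW⟩ := hp3
  exact ⟨W'', hW.symm⟩

end Pool.Agent.WLU
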