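import Pool.Agent.WLU.GoodPoly
import Pool.Agent.Helper76.MRDP

set_option autoImplicit false

/-!
# Recursively enumerable sets are definable by word equations and equal lengths (six letters)

MRDP theorem for all recursively enumerable sets, and the system of `Sys.lean` for all of them.
-/

namespace Pool.Agent.WLU

open Pool.Agent.Helper76 in
/-- **MRDP theorem**: a recursively enumerable set of natural numbers is Diophantine. -/
theorem dioph_of_re {K : ℕ → Prop} (hK : REPred K) : Dioph {v : Unit → ℕ | K (v ())} := by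
  have h1 : Partrec fun n : ℕ => (Part.assert (K n) fun _ => Part.some ()) := hK
  have h2 : Partrec fun n : ℕ => ((Part.assert (K n) fun _ => Part.some ()) : Part Unit).map
      (fun _ => 0) := h1.map (Computable.const 0).to₂
  obtain ⟨c, hc⟩ := Nat.Partrec.Code.exists_code.1 (Partrec.nat_iff.1 h2)
  have hd : ∀ n, K n ↔ (Nat.Partrec.Code.eval c n).Dom := by
    intro n
    rw [hc]
    simp [Part.assert]
  let F : ℕ → ℕ := fun n => cond (Nat.Partrec.Code.evaln n.unpair.2 c n.unpair.1).isSome 0 1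
  have hF : Nat.Primrec F := by
    rw [← Primrec.nat_iff]
    refine Primrec.cond (Primrec.option_isSome.comp (Nat.Partrec.Code.primrec_evaln.comp
      (Primrec.pair (Primrec.pair (Primrec.snd.comp Primrec.unpair)
        (Primrec.const c)) (Primrec.fst.comp Primrec.unpair)))) (Primrec.const 0) (Primrec.const 1)
  have hKF : ∀ n, K n ↔ ∃ k, F (Nat.pair n k) = 0 := by
    intro n
    rw [hd, Part.dom_iff_mem]
    simp only [F, Nat.unpair_pair]
    constructor
    · rintro ⟨y, hy⟩
      obtain ⟨k, hk⟩ := Nat.Partrec.Code.evaln_complete.1 hy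
      refine ⟨k, ?_⟩
      have : (Nat.Partrec.Code.evaln k c n).isSome = true := Option.isSome_iff_exists.2 ⟨y, hk⟩
      rw [this]; rfl
    · rintro ⟨k, hk⟩
      by_cases h : (Nat.Partrec.Code.evaln k c n).isSome = true
      · obtain ⟨y, hy⟩ := Option.isSome_iff_exists.1 h
        exact ⟨y, Nat.Partrec.Code.evaln_complete.2 ⟨k, hy⟩⟩
      · simp only [Bool.not_eq_true] at h
        rw [h] at hk
        simp at hk
  have key : Dioph {v : Unit → ℕ | ∃ k, F (Nat.pair (v ()) k) = 0} := by
    refine ex' (P := fun v k => F (Nat.pair (v ()) k) = 0) ?_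
    exact Dioph.eq_dioph (D1_of_primrec hF _ _
      (pair_dioph (diophFn_some (Dioph.proj_dioph ())) proj_none)) (Dioph.const_dioph 0)
  exact Dioph.ext key fun v => (hKF (v ())).symm

theorem ev_congr' {V : Type} {σ τ : V → List (Fin 6)} {l : List (Fin 6 ⊕ V)}
    (h : ∀ v, Sum.inr v ∈ l → σ v = τ v) : ev σ l = ev τ l := by
  unfold ev
  rw [List.flatMap_def, List.flatMap_def]
  congr 1
  apply List.map_congr_left
  intro x hx
  rcases x with x | x
  · rfl
  · exact h x hx

/-- variables of a system -/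
def vars {V : Type} (E : List (List (Fin 6 ⊕ V) × List (Fin 6 ⊕ V))) (L : List (V × V)) :
    List V :=
  E.flatMap (fun e => (e.1 ++ e.2).filterMap (Sum.elim (fun _ => none) some)) ++
    L.flatMap (fun p => [p.1, p.2])

theorem mem_vars_E {V : Type} {E : List (List (Fin 6 ⊕ V) × List (Fin 6 ⊕ V))} {L : List (V × V)}
    {e : List (Fin 6 ⊕ V) × List (Fin 6 ⊕ V)} (he : e ∈ E) {v : V} (hv : Sum.inr v ∈ e.1 ++ e.2) :
    v ∈ vars E L := by
  unfold vars
  rw [List.mem_append, List.mem_flatMap]
  refine Or.inl ⟨e, he, ?_⟩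
  rw [List.mem_filterMap]
  exact ⟨Sum.inr v, hv, rfl⟩

theorem mem_vars_L {V : Type} {E : List (List (Fin 6 ⊕ V) × List (Fin 6 ⊕ V))} {L : List (V × V)}
    {p : V × V} (hp : p ∈ L) {v : V} (hv : v ∈ [p.1, p.2]) : v ∈ vars E L := by
  unfold vars
  rw [List.mem_append, List.mem_flatMap, List.mem_flatMap]
  exact Or.inr ⟨p, hp, hv⟩

theorem sol_congr' {V : Type} {σ τ : V → List (Fin 6)}
    {E : List (List (Fin 6 ⊕ V) × List (Fin 6 ⊕ V))} {L : List (V × V)}
    (h : ∀ v ∈ vars E L, σ v = τ v) : Sol E L σ ↔ Sol E L τ := by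
  unfold Sol
  refine and_congr (forall_congr' fun e => forall_congr' fun he => ?_)
    (forall_congr' fun p => forall_congr' fun hp => ?_)
  · rw [ev_congr' (fun v hv => h v (mem_vars_E he (List.mem_append_left _ hv))),
      ev_congr' (fun v hv => h v (mem_vars_E he (List.mem_append_right _ hv)))]
  · rw [h p.1 (mem_vars_L hp (by simp)), h p.2 (mem_vars_L hp (by simp))]

/-- every recursively enumerable set is the solvability set of a system over six letters -/
theorem exists_system_re {K : ℕ → Prop} (hK : REPred K) :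
    ∃ (E : List (List (Fin 6 ⊕ ℕ) × List (Fin 6 ⊕ ℕ))) (L : List (ℕ × ℕ)),
      ∀ n, K n ↔ ∃ σ : ℕ → List (Fin 6), σ 0 = nw n ∧ Sol E L σ := by
  classical
  obtain ⟨β, p, hp⟩ := dioph_of_re hK
  obtain ⟨m, q, hq⟩ := Pool.Agent.Helper76.finite_dummies p
  obtain ⟨κ, E, L, hE⟩ := good_exFin (good_poly q)
  have hKE : ∀ n, K n ↔ ∃ τ : κ → List (Fin 6), Sol E L (Sum.elim (fun _ => nw n) τ) := by
    intro n
    have h1 := hp (fun _ => n)
    rw [Set.mem_ofPred_eq, hq] at h1
    have h2 := hE (fun _ => n)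
    rw [Set.mem_ofPred_eq] at h2
    rw [h1, ← h2]
    rfl
  let J : List κ := (vars E L).filterMap (Sum.elim (fun _ => none) some)
  let g : Unit ⊕ κ → ℕ := Sum.elim (fun _ => 0) (fun k => J.idxOf k + 1)
  refine ⟨renE g E, renL g L, fun n => ?_⟩
  rw [hKE]
  constructor
  · rintro ⟨τ, hτ⟩
    refine ⟨fun j => match j with
      | 0 => nw n
      | j + 1 => if h : j < J.length then τ (J[j]) else [], rfl, ?_⟩
    rw [sol_ren]
    refine (sol_congr' ?_).1 hτ
    rintro (v | v) hv
    · rfl
    · have hvL : v ∈ J := by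
        rw [List.mem_filterMap]
        exact ⟨Sum.inr v, hv, rfl⟩
      have hlt : J.idxOf v < J.length := List.idxOf_lt_length_iff.2 hvL
      simp only [Sum.elim_inr, Function.comp_apply, g]
      rw [dif_pos hlt, List.getElem_idxOf]
  · rintro ⟨σ, h0, hσ⟩
    rw [sol_ren] at hσ
    refine ⟨fun k => σ (g (Sum.inr k)), ?_⟩
    convert hσ using 1
    funext s
    rcases s with s | s
    · exact h0.symm
    · rfl

end Pool.Agent.WLU
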