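import Pool.Agent.WLU.GoodPoly
import Pool.Agent.Helper76.MRDP

set_option autoImplicit false

/-!
# A system with undecidable instances

There is a system of word equations with equal length constraints, with a parameter `n` coded by `0^n`, whose
set of solvable instances is not computable (MRDP theorem).
-/

namespace Pool.Agent.WLU

private theorem ev_congr {V : Type} {σ τ : V → List (Fin 6)} {l : List (Fin 6 ⊕ V)}
    (h : ∀ v, Sum.inr v ∈ l → σ v = τ v) : ev σ l = ev τ l := by
  unfold ev
  rw [List.flatMap_def, List.flatMap_def]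
  congr 1
  apply List.map_congr_left
  intro x hx
  rcases x with x | x
  · rfl
  · exact h x hx

/-- variables of a system -/
private def vars {V : Type} (E : List (List (Fin 6 ⊕ V) × List (Fin 6 ⊕ V))) (L : List (V × V)) :
    List V :=
  E.flatMap (fun e => (e.1 ++ e.2).filterMap (Sum.elim (fun _ => none) some)) ++
    L.flatMap (fun p => [p.1, p.2])

private theorem sol_congr {V : Type} {σ τ : V → List (Fin 6)}
    {E : List (List (Fin 6 ⊕ V) × List (Fin 6 ⊕ V))} {L : List (V × V)}
    (h : ∀ v ∈ vars E L, σ v = τ v) : Sol E L σ ↔ Sol E L τ := by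
  unfold Sol
  refine and_congr (forall_congr' fun e => forall_congr' fun he => ?_)
    (forall_congr' fun p => forall_congr' fun hp => ?_)
  · have hmem : ∀ v, Sum.inr v ∈ e.1 ++ e.2 → v ∈ vars E L := by
      intro v hv
      unfold vars
      rw [List.mem_append, List.mem_flatMap]
      refine Or.inl ⟨e, he, ?_⟩
      rw [List.mem_filterMap]
      exact ⟨Sum.inr v, hv, rfl⟩
    rw [ev_congr (fun v hv => h v (hmem v (List.mem_append_left _ hv))),
      ev_congr (fun v hv => h v (hmem v (List.mem_append_right _ hv)))]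
  · have hmem : ∀ v ∈ [p.1, p.2], v ∈ vars E L := by
      intro v hv
      unfold vars
      rw [List.mem_append, List.mem_flatMap, List.mem_flatMap]
      exact Or.inr ⟨p, hp, hv⟩
    rw [h p.1 (hmem _ (by simp)), h p.2 (hmem _ (by simp))]

theorem exists_system : ∃ (K : ℕ → Prop) (E : List (List (Fin 6 ⊕ ℕ) × List (Fin 6 ⊕ ℕ)))
    (L : List (ℕ × ℕ)), ¬ ComputablePred K ∧
      ∀ n, K n ↔ ∃ σ : ℕ → List (Fin 6), σ 0 = nw n ∧ Sol E L σ := by
  classical
  obtain ⟨K, hK, β, p, hp⟩ := Pool.Agent.Helper76.exists_dioph_not_computable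
  obtain ⟨m, q, hq⟩ := Pool.Agent.Helper76.finite_dummies p
  obtain ⟨κ, E, L, hE⟩ := good_exFin (good_poly q)
  have hKE : ∀ n, K n ↔ ∃ τ : κ → List (Fin 6), Sol E L (Sum.elim (fun _ => nw n) τ) := by
    intro n
    have h1 := hp (fun _ => n)
    rw [Set.mem_ofPred_eq, hq] at h1
    have h2 := hE (fun _ => n)
    rw [Set.mem_ofPred_eq] at h2
    rw [h1, ← h2]
    rfl
  let J : List κ := (vars E L).filterMap (Sum.elim (fun _ => none) some)
  let g : Unit ⊕ κ → ℕ := Sum.elim (fun _ => 0) (fun k => J.idxOf k + 1)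
  refine ⟨K, renE g E, renL g L, hK, fun n => ?_⟩
  rw [hKE]
  constructor
  · rintro ⟨τ, hτ⟩
    refine ⟨fun j => match j with
      | 0 => nw n
      | j + 1 => if h : j < J.length then τ (J[j]) else [], rfl, ?_⟩
    rw [sol_ren]
    refine (sol_congr ?_).1 hτ
    rintro (v | v) hv
    · rfl
    · have hvL : v ∈ J := by
        rw [List.mem_filterMap]
        exact ⟨Sum.inr v, hv, rfl⟩
      have hlt : J.idxOf v < J.length := List.idxOf_lt_length_iff.2 hvL
      simp only [Sum.elim_inr, Function.comp_apply, g]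
      rw [dif_pos hlt, List.getElem_idxOf]
  · rintro ⟨σ, h0, hσ⟩
    rw [sol_ren] at hσ
    refine ⟨fun k => σ (g (Sum.inr k)), ?_⟩
    convert hσ using 1
    funext s
    rcases s with s | s
    · exact h0.symm
    · rfl

end Pool.Agent.WLU
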